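import Mathlib
import Pool.Agent.TH876.KR.Fin

set_option autoImplicit false

/-!
# Configurations of `m + 3` points of the projective line over a number field

A configuration is `x : Fin m → K`, the points being `∞, 0, 1, x 0, ..., x (m - 1)`.
-/

namespace Pool.Agent.TH876.MN

open NumberField IsDedekindDomain Finset Pool.Agent.H691R3 Pool.Agent.TH876.Loc
open Pool.Agent.TH876.KR (form localHeight tt tri m2 GoodPr)

variable {K : Type} [Field K] [NumberField K]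

/-- the points `∞, 0, 1, x 0, ..., x (m - 1)` are different -/
def Cfg {m : ℕ} (x : Fin m → K) : Prop :=
  (∀ i, x i ≠ 0 ∧ 1 - x i ≠ 0) ∧ ∀ i j, i ≠ j → x i - x j ≠ 0

/-- the points `∞, 0, 1, x 0, ..., x (m - 1)` are different modulo `v` -/
def Gd {m : ℕ} (v : Pr K) (x : Fin m → K) : Prop :=
  (∀ i, fv v (x i) = 1 ∧ fv v (1 - x i) = 1) ∧ ∀ i j, i ≠ j → fv v (x i - x j) = 1

theorem bd_finite {m : ℕ} {x : Fin m → K} (hx : Cfg x) : {v : Pr K | ¬ Gd v x}.Finite := by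
  classical
  have h1 : (⋃ i, {v : Pr K | fv v (x i) ≠ 1}).Finite :=
    Set.finite_iUnion fun i => fv_support_finite (hx.1 i).1
  have h2 : (⋃ i, {v : Pr K | fv v (1 - x i) ≠ 1}).Finite :=
    Set.finite_iUnion fun i => fv_support_finite (hx.1 i).2
  have h3 : (⋃ p : Fin m × Fin m, {v : Pr K | p.1 ≠ p.2 ∧ fv v (x p.1 - x p.2) ≠ 1}).Finite := by
    refine Set.finite_iUnion fun p => ?_
    by_cases hp : p.1 = p.2
    · refine Set.Finite.subset Set.finite_empty ?_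
      intro v hv
      exact absurd hp hv.1
    · exact (fv_support_finite (hx.2 _ _ hp)).subset fun v hv => hv.2
  refine (h1.union (h2.union h3)).subset ?_
  intro v hv
  by_contra hcon
  rw [Set.mem_union, Set.mem_union, not_or, not_or] at hcon
  obtain ⟨k1, k2, k3⟩ := hcon
  apply hv
  refine ⟨fun i => ⟨?_, ?_⟩, fun i j hij => ?_⟩
  · by_contra h
    exact k1 (Set.mem_iUnion.2 ⟨i, h⟩)
  · by_contra h
    exact k2 (Set.mem_iUnion.2 ⟨i, h⟩)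
  · by_contra h
    exact k3 (Set.mem_iUnion.2 ⟨(i, j), hij, h⟩)

open Classical in
/-- the primes of bad reduction of a configuration -/
noncomputable def bd {m : ℕ} (x : Fin m → K) : Finset (Pr K) :=
  if h : {v : Pr K | ¬ Gd v x}.Finite then h.toFinset else ∅

theorem mem_bd {m : ℕ} {x : Fin m → K} (hx : Cfg x) (v : Pr K) : v ∈ bd x ↔ ¬ Gd v x := by
  unfold bd
  rw [dif_pos (bd_finite hx), Set.Finite.mem_toFinset]
  rfl

/-- the points `∞, 0, 1, x 0, ..., x (m - 1)` as vectors -/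
def sec {m : ℕ} (x : Fin m → K) : Fin (m + 3) → Fin 2 → K :=
  fun k => Fin.addCases (fun i : Fin m => ![x i, 1]) (fun j : Fin 3 => ![![1, 0], ![0, 1], ![1, 1]] j) k

/-- the five ways to forget a point of `∞, 0, 1, x 0, x 1`: the four other points are moved to
`∞, 0, 1, aut i x 0`, and the fifth point to `aut i x 1` -/
def aut (i : Fin 5) (x : Fin 2 → K) : Fin 2 → K :=
  ![![x 0, x 1], ![x 1, x 0], ![x 0 / x 1, 1 / x 1],
    ![(x 0 - 1) / (x 1 - 1), 1 / (1 - x 1)],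
    ![x 0 * (x 1 - 1) / (x 1 * (x 0 - 1)), (x 1 - 1) / x 1]] i

section Bounds

variable (K)

/-- at most `C H X ^ (e + ε)` configurations of height up to `H` with bad primes of norm product
at most `X` -/
def CountBound (m : ℕ) (e : ℝ) : Prop := ∀ ε : ℝ, 0 < ε → ∃ C : ℝ, 0 < C ∧ ∀ X H : ℝ, 1 ≤ X →
  1 ≤ H → ∀ F : Finset (Fin m → K), (∀ x ∈ F, Cfg x ∧ nn (bd x) ≤ X ∧
    ∀ i, Height.logHeight₁ (x i) ≤ H) → (F.card : ℝ) ≤ C * H * X ^ (e + ε)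

/-- the bound for the fibres of the map forgetting the last point -/
def FibreBound (m : ℕ) : Prop := ∀ ε : ℝ, 0 < ε → ∃ D : ℝ, 0 < D ∧ ∀ X : ℝ, 1 ≤ X →
  ∀ ξ : Fin m → K, Cfg ξ → nn (bd ξ) ≤ X → ∀ W : Finset K,
    (∀ w ∈ W, Cfg (Fin.snoc ξ w : Fin (m + 1) → K) ∧
      nn (bd (Fin.snoc ξ w : Fin (m + 1) → K)) ≤ X) →
    (W.card : ℝ) ≤ D * X ^ ε * (X / nn (bd ξ)) ^ (3 / ((m : ℝ) + 3))

/-- three sections with few new primes -/
def ChooseSec (m : ℕ) : Prop := ∀ (ξ : Fin m → K), Cfg ξ → ∀ w : K,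
  Cfg (Fin.snoc ξ w : Fin (m + 1) → K) →
  (∀ i j, i ≠ j → form (sec ξ i) (sec ξ j) ≠ 0) ∧ (∀ i, form (sec ξ i) ![w, 1] ≠ 0) ∧
  ∃ (s : Fin (m + 3)) (u : Finset (Pr K)),
    (∀ v ∈ sp (tt (tri (sec ξ) s) ![w, 1]), v ∈ bd ξ ∨ v ∈ u) ∧
    nn u ≤ (nn (bd (Fin.snoc ξ w : Fin (m + 1) → K)) / nn (bd ξ)) ^ (3 / ((m : ℝ) + 3))

/-- few points with bad primes in a given set -/
def LightSets : Prop := ∃ C : ℝ, 1 ≤ C ∧ ∀ (b : Finset (Pr K)) (E : Finset K),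
  (∀ t ∈ E, Pt t ∧ sp t ⊆ b) → (E.card : ℝ) ≤ C ^ (b.card + 1)

/-- exponentials in the number of primes are small -/
def PowCard : Prop := ∀ C : ℝ, 1 ≤ C → ∀ ε : ℝ, 0 < ε → ∃ D : ℝ, 1 ≤ D ∧
  ∀ b : Finset (Pr K), C ^ b.card ≤ D * nn b ^ ε

end Bounds

/-- a sum over layers -/
def LayerBound : Prop := ∀ e ε : ℝ, 0 ≤ e → 0 < ε → ∃ D : ℝ, 0 < D ∧
  ∀ (α : Type) (F : Finset α) (r : α → ℝ) (M X : ℝ), 0 ≤ M → 1 ≤ X →
    (∀ a ∈ F, 1 ≤ r a ∧ r a ≤ X) →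
    (∀ R : ℝ, 1 ≤ R → ∀ G : Finset α, G ⊆ F → (∀ a ∈ G, r a ≤ R) →
      (G.card : ℝ) ≤ M * R ^ (e + ε)) →
    ∑ a ∈ F, (r a) ^ (-e) ≤ D * M * X ^ (2 * ε)

end Pool.Agent.TH876.MN
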