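import Mathlib
import Pool.Agent.TH876.Light
import Pool.Agent.TH876.MN.Def

set_option autoImplicit false

/-!
# Few points with bad primes in a given set; exponentials in the number of primes
-/

namespace Pool.Agent.TH876.MN

open NumberField IsDedekindDomain Finset Pool.Agent.H691R3 Pool.Agent.TH876.Loc
open Pool.Agent.TH876.KR (form localHeight tt tri m2 GoodPr)

variable {K : Type} [Field K] [NumberField K]

variable (K) in
/-- few points with a given set of bad primes -/
theorem lightSets : LightSets K := by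
  classical
  obtain ⟨C, hC, h⟩ := light_count (Module.finrank ℚ K) 0 (by norm_num)
  refine ⟨C, hC, fun b E hE => h K rfl b E fun x hx => ⟨(hE x hx).1, ?_⟩⟩
  have h1 : out b x = 0 := by
    unfold out
    refine Finset.sum_eq_zero fun v hv => ?_
    rw [Finset.mem_sdiff] at hv
    exact absurd ((hE x hx).2 hv.1) hv.2
  rw [h1, zero_mul]

variable (K) in
private theorem lights_finite (B : ℝ) : {v : Pr K | Nv v ≤ B}.Finite := by
  by_contra h
  have hX : (1 : ℝ) < max B 2 := lt_of_lt_of_le (by norm_num) (le_max_right _ _)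
  obtain ⟨n, hn⟩ := exists_nat_gt
    (5 * (Module.finrank ℚ K : ℝ) * (max B 2 / Real.log (max B 2)))
  obtain ⟨F, hF, hc⟩ := Set.Infinite.exists_subset_card_eq h n
  have h1 := card_primes_le hX F fun v hv => (hF hv : Nv v ≤ B).trans (le_max_left _ _)
  rw [hc] at h1
  linarith

variable (K) in
theorem powCard : PowCard K := by
  classical
  intro C hC ε hε
  have hfin := lights_finite K (C ^ (1 / ε))
  refine ⟨C ^ hfin.toFinset.card, one_le_pow₀ hC, fun b => ?_⟩
  have hC0 : 0 < C := by linarith
  have hbig : ∀ v : Pr K, v ∉ hfin.toFinset → C ≤ Nv v ^ ε := by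
    intro v hv
    rw [Set.Finite.mem_toFinset] at hv
    have h1 : C ^ (1 / ε) < Nv v := not_le.1 hv
    have h2 : (C ^ (1 / ε)) ^ ε ≤ Nv v ^ ε :=
      Real.rpow_le_rpow (by positivity) h1.le hε.le
    rwa [← Real.rpow_mul hC0.le, one_div, inv_mul_cancel₀ hε.ne', Real.rpow_one] at h2
  have hone : ∀ v : Pr K, 1 ≤ Nv v ^ ε := fun v => Real.one_le_rpow (one_le_Nv v) hε.le
  have h1 : C ^ b.card ≤ ∏ v ∈ b, ((if v ∈ hfin.toFinset then C else 1) * Nv v ^ ε) := by
    rw [← Finset.prod_const]
    refine Finset.prod_le_prod (fun _ _ => hC0.le) fun v _ => ?_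
    by_cases hv : v ∈ hfin.toFinset
    · rw [if_pos hv]
      nlinarith [hone v]
    · rw [if_neg hv, one_mul]
      exact hbig v hv
  refine h1.trans ?_
  rw [Finset.prod_mul_distrib]
  have h2 : ∏ v ∈ b, Nv v ^ ε = nn b ^ ε := by
    unfold nn
    exact Real.finsetProd_rpow b (fun v => Nv v) (fun v _ => (Nv_pos v).le) ε
  have h3 : ∏ v ∈ b, (if v ∈ hfin.toFinset then C else 1) ≤ C ^ hfin.toFinset.card := by
    rw [Finset.prod_ite, Finset.prod_const, Finset.prod_const_one, mul_one]
    refine pow_le_pow_right₀ hC (Finset.card_le_card fun v hv => ?_)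
    exact (Finset.mem_filter.1 hv).2
  rw [h2]
  exact mul_le_mul_of_nonneg_right h3 (Real.rpow_nonneg (nn_pos b).le ε)

end Pool.Agent.TH876.MN
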