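import Mathlib
import Pool.Agent.TH876.KR.Main
import Pool.Agent.TH876.MN.Def

set_option autoImplicit false

/-!
# The count of configurations of four points
-/

namespace Pool.Agent.TH876.MN

open NumberField IsDedekindDomain Finset Pool.Agent.H691R3 Pool.Agent.TH876.Loc
open Pool.Agent.TH876.KR (form localHeight tt tri m2 GoodPr)

variable {K : Type} [Field K] [NumberField K]

variable (K) in
/-- the matrix of the forms `t`, `1`, `-t-1` -/
private def base_mat : Fin 3 × Fin 2 → K := fun p => ![![1, 0], ![0, 1], ![-1, -1]] p.1 p.2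

private theorem base_hgt {t : K} (ht : Pt t) :
    hgt t ≤ (Height.totalWeight K * Real.log 2 + Height.logHeight (base_mat K)) +
      Height.logHeight₁ t := by
  refine (KR.hgt_le_logHeight ht).trans ?_
  have h1 : (fun i : Fin 3 => L i t) =
      (fun i : Fin 3 => ∑ j, base_mat K (i, j) * ![t, 1] j) := by
    funext i
    rw [Fin.sum_univ_two]
    unfold base_mat L
    fin_cases i <;> simp
    ring
  rw [h1, Height.logHeight₁_eq_logHeight]
  refine (Height.logHeight_linearMap_apply_le (base_mat K) ![t, 1]).trans ?_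
  rw [Nat.card_eq_fintype_card, Fintype.card_fin]
  push_cast
  exact le_rfl

variable (K) in
/-- the count of points (`KR.main_count`), in terms of configurations of four points -/
theorem base : CountBound K 1 (2 / 3) := by
  classical
  intro ε hε
  obtain ⟨C, hC0, hC⟩ := KR.main_count K ε hε
  set c : ℝ := Height.totalWeight K * Real.log 2 + Height.logHeight (base_mat K) with hc
  have hc0 : 0 ≤ c := add_nonneg (mul_nonneg (Nat.cast_nonneg _) (Real.log_nonneg (by norm_num)))
    (Height.logHeight_nonneg _)
  refine ⟨C * (1 + c), by positivity, ?_⟩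
  intro X H hX hH F hF
  have hinj : Set.InjOn (fun x : Fin 1 → K => -(x 0)) (F : Set (Fin 1 → K)) := by
    intro x _ y _ hxy
    funext i
    have : i = 0 := Subsingleton.elim _ _
    rw [this]
    exact neg_injective hxy
  rw [← Finset.card_image_of_injOn hinj, mul_assoc C (1 + c) H]
  refine hC X ((1 + c) * H) hX (by nlinarith) _ ?_
  intro t ht
  obtain ⟨x, hx, rfl⟩ := Finset.mem_image.1 ht
  obtain ⟨hcfg, hnn, hH'⟩ := hF x hx
  have hpt : Pt (-(x 0)) := by
    refine ⟨neg_ne_zero.2 (hcfg.1 0).1, ?_⟩
    have := (hcfg.1 0).2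
    rwa [neg_add_eq_sub]
  refine ⟨hpt, (nn_mono ?_).trans hnn, ?_⟩
  · intro v hv
    rw [mem_sp hpt] at hv
    rw [mem_bd hcfg]
    intro hg
    apply hv
    refine ⟨?_, ?_⟩
    · rw [(fv v).map_neg]
      exact (hg.1 0).1
    · rw [neg_add_eq_sub]
      exact (hg.1 0).2
  · have h1 := base_hgt hpt
    rw [Height.logHeight₁_neg] at h1
    have h2 := hH' 0
    rw [← hc] at h1
    nlinarith

end Pool.Agent.TH876.MN
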