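import Mathlib
import Pool.Agent.TH876.MN.Def

set_option autoImplicit false
set_option linter.unusedSectionVars false
set_option linter.unusedVariables false

namespace Pool.Agent.TH876.MN

open NumberField IsDedekindDomain Finset Pool.Agent.H691R3 Pool.Agent.TH876.Loc
open Pool.Agent.TH876.KR (form localHeight tt tri m2 GoodPr)

variable {K : Type} [Field K] [NumberField K]

theorem choose_sec_left {m : ℕ} (x : Fin m → K) (i : Fin m) :
    sec x (Fin.castAdd 3 i) = ![x i, 1] := by
  unfold sec
  rw [Fin.addCases_left]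

theorem choose_sec_right {m : ℕ} (x : Fin m → K) (j : Fin 3) :
    sec x (Fin.natAdd m j) = (![![1, 0], ![0, 1], ![1, 1]] : Fin 3 → Fin 2 → K) j := by
  unfold sec
  rw [Fin.addCases_right]

theorem choose_pair {m : ℕ} (x : Fin m → K) (P : K → Prop) (hneg : ∀ a, P a → P (-a))
    (h1 : P 1) (hx : ∀ i, P (x i)) (h1x : ∀ i, P (1 - x i))
    (hxx : ∀ i j, i ≠ j → P (x i - x j)) :
    ∀ i j : Fin (m + 3), i ≠ j → P (form (sec x i) (sec x j)) := by
  intro i
  refine Fin.addCases (fun i => ?_) (fun i => ?_) i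
  · intro j
    refine Fin.addCases (fun j => ?_) (fun j => ?_) j
    · intro hij
      have hij' : i ≠ j := fun h => hij (by rw [h])
      rw [choose_sec_left, choose_sec_left]
      have : form (![x i, 1] : Fin 2 → K) ![x j, 1] = x i - x j := by simp [form]
      rw [this]
      exact hxx i j hij'
    · intro _
      rw [choose_sec_left, choose_sec_right]
      fin_cases j
      · have : form (![x i, 1] : Fin 2 → K) ![1, 0] = -1 := by simp [form]
        show P (form (![x i, 1] : Fin 2 → K) ![1, 0])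
        rw [this]
        exact hneg _ h1
      · have : form (![x i, 1] : Fin 2 → K) ![0, 1] = x i := by simp [form]
        show P (form (![x i, 1] : Fin 2 → K) ![0, 1])
        rw [this]
        exact hx i
      · have : form (![x i, 1] : Fin 2 → K) ![1, 1] = -(1 - x i) := by simp [form]
        show P (form (![x i, 1] : Fin 2 → K) ![1, 1])
        rw [this]
        exact hneg _ (h1x i)
  · intro j
    refine Fin.addCases (fun j => ?_) (fun j => ?_) j
    · intro _
      rw [choose_sec_left, choose_sec_right]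
      fin_cases i
      · have : form (![1, 0] : Fin 2 → K) ![x j, 1] = 1 := by simp [form]
        show P (form (![1, 0] : Fin 2 → K) ![x j, 1])
        rw [this]
        exact h1
      · have : form (![0, 1] : Fin 2 → K) ![x j, 1] = -(x j) := by simp [form]
        show P (form (![0, 1] : Fin 2 → K) ![x j, 1])
        rw [this]
        exact hneg _ (hx j)
      · have : form (![1, 1] : Fin 2 → K) ![x j, 1] = 1 - x j := by simp [form]
        show P (form (![1, 1] : Fin 2 → K) ![x j, 1])
        rw [this]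
        exact h1x j
    · intro hij
      have hij' : i ≠ j := fun h => hij (by rw [h])
      rw [choose_sec_right, choose_sec_right]
      have key : form ((![![1, 0], ![0, 1], ![1, 1]] : Fin 3 → Fin 2 → K) i)
          ((![![1, 0], ![0, 1], ![1, 1]] : Fin 3 → Fin 2 → K) j) = 1 ∨
          form ((![![1, 0], ![0, 1], ![1, 1]] : Fin 3 → Fin 2 → K) i)
          ((![![1, 0], ![0, 1], ![1, 1]] : Fin 3 → Fin 2 → K) j) = -1 := by
        fin_cases i <;> fin_cases j <;> first | exact absurd rfl hij' | simp [form]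
      rcases key with h | h
      · rw [h]; exact h1
      · rw [h]; exact hneg _ h1

theorem choose_vec {m : ℕ} (x : Fin m → K) (w : K) (P : K → Prop) (hneg : ∀ a, P a → P (-a))
    (h1 : P 1) (hw : P w) (h1w : P (1 - w)) (hxw : ∀ i, P (x i - w)) :
    ∀ i : Fin (m + 3), P (form (sec x i) ![w, 1]) := by
  intro i
  refine Fin.addCases (fun i => ?_) (fun i => ?_) i
  · rw [choose_sec_left]
    have : form (![x i, 1] : Fin 2 → K) ![w, 1] = x i - w := by simp [form]
    rw [this]
    exact hxw i
  · rw [choose_sec_right]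
    fin_cases i
    · have : form (![1, 0] : Fin 2 → K) ![w, 1] = 1 := by simp [form]
      show P (form (![1, 0] : Fin 2 → K) ![w, 1])
      rw [this]
      exact h1
    · have : form (![0, 1] : Fin 2 → K) ![w, 1] = -w := by simp [form]
      show P (form (![0, 1] : Fin 2 → K) ![w, 1])
      rw [this]
      exact hneg _ hw
    · have : form (![1, 1] : Fin 2 → K) ![w, 1] = 1 - w := by simp [form]
      show P (form (![1, 1] : Fin 2 → K) ![w, 1])
      rw [this]
      exact h1w

theorem choose_m2 {m : ℕ} {v : Pr K} {x : Fin m → K} (h : Gd v x) (i : Fin (m + 3)) :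
    m2 v (sec x i) = 1 := by
  refine Fin.addCases (fun i => ?_) (fun i => ?_) i
  · rw [choose_sec_left]
    show max (fv v (x i)) (fv v 1) = 1
    rw [(h.1 i).1, map_one, max_self]
  · rw [choose_sec_right]
    fin_cases i
    · show max (fv v (1 : K)) (fv v 0) = 1
      rw [map_one, map_zero]
      exact max_eq_left zero_le_one
    · show max (fv v (0 : K)) (fv v 1) = 1
      rw [map_one, map_zero]
      exact max_eq_right zero_le_one
    · show max (fv v (1 : K)) (fv v 1) = 1
      rw [map_one, max_self]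

theorem choose_goodPr {m : ℕ} {v : Pr K} {x : Fin m → K} (h : Gd v x) : GoodPr (sec x) v := by
  refine ⟨choose_m2 h, ?_⟩
  exact choose_pair x (fun a => fv v a = 1) (fun a ha => by
    show fv v (-a) = 1
    rw [(fv v).map_neg]; exact ha) (map_one _) (fun i => (h.1 i).1) (fun i => (h.1 i).2) h.2

theorem choose_snoc {m : ℕ} (x : Fin m → K) (w : K) (Q : K → Prop)
    (hneg : ∀ a, Q a → Q (-a))
    (h : (∀ i, Q ((Fin.snoc x w : Fin (m + 1) → K) i) ∧
      Q (1 - (Fin.snoc x w : Fin (m + 1) → K) i)) ∧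
      ∀ i j, i ≠ j → Q ((Fin.snoc x w : Fin (m + 1) → K) i - (Fin.snoc x w : Fin (m + 1) → K) j)) :
    ((∀ i, Q (x i) ∧ Q (1 - x i)) ∧ ∀ i j, i ≠ j → Q (x i - x j)) ∧
      Q w ∧ Q (1 - w) ∧ ∀ i, Q (x i - w) := by
  have hl : (Fin.snoc x w : Fin (m + 1) → K) (Fin.last m) = w := Fin.snoc_last (α := fun _ => K) w x
  have hc : ∀ i, (Fin.snoc x w : Fin (m + 1) → K) (Fin.castSucc i) = x i := fun i =>
    Fin.snoc_castSucc (α := fun _ => K) w x i
  refine ⟨⟨fun i => ?_, fun i j hij => ?_⟩, ?_, ?_, fun i => ?_⟩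
  · have := h.1 (Fin.castSucc i)
    rw [hc] at this
    exact this
  · have := h.2 (Fin.castSucc i) (Fin.castSucc j) (fun h' => hij (Fin.castSucc_injective m h'))
    rw [hc, hc] at this
    exact this
  · have := (h.1 (Fin.last m)).1
    rw [hl] at this
    exact this
  · have := (h.1 (Fin.last m)).2
    rw [hl] at this
    exact this
  · have := h.2 (Fin.castSucc i) (Fin.last m) (Fin.castSucc_ne_last i)
    rw [hl, hc] at this
    exact this

variable (K) in
/-- three sections with few new primes -/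
theorem chooseSec (m : ℕ) : ChooseSec K m := by
  classical
  intro ξ hξ w hw
  have hne_neg : ∀ a : K, a ≠ 0 → -a ≠ 0 := fun a ha => neg_ne_zero.2 ha
  obtain ⟨_, hw0, hw1, hxw⟩ := choose_snoc ξ w (fun a => a ≠ 0) hne_neg hw
  have ha : ∀ i j, i ≠ j → form (sec ξ i) (sec ξ j) ≠ 0 :=
    choose_pair ξ (fun a => a ≠ 0) hne_neg one_ne_zero (fun i => (hξ.1 i).1)
      (fun i => (hξ.1 i).2) hξ.2
  have hx : ∀ i, form (sec ξ i) ![w, 1] ≠ 0 :=
    choose_vec ξ w (fun a => a ≠ 0) hne_neg one_ne_zero hw0 hw1 hxw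
  refine ⟨ha, hx, ?_⟩
  set N0 : Finset (Pr K) := bd (Fin.snoc ξ w : Fin (m + 1) → K) with hN0
  set T : Finset (Pr K) := bd ξ with hT
  have hfneg : ∀ (v : Pr K) (a : K), fv v a = 1 → fv v (-a) = 1 := by
    intro v a h
    rw [(fv v).map_neg]; exact h
  have hTN : T ⊆ N0 := by
    intro v hv
    rw [hT, mem_bd hξ] at hv
    rw [hN0, mem_bd hw]
    intro hg
    exact hv (choose_snoc ξ w (fun a => fv v a = 1) (hfneg v) hg).1
  have hGood : ∀ v, v ∉ T → GoodPr (sec ξ) v := by
    intro v hv
    rw [hT, mem_bd hξ, not_not] at hv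
    exact choose_goodPr hv
  have hlogpos : ∀ v : Pr K, 0 ≤ Real.log (Nv v) := fun v => (KR.log_Nv_pos' v).le
  set si : Fin (m + 3) → Finset (Pr K) := fun i =>
    (N0 \ T).filter fun v => 0 < localHeight v (sec ξ i) ![w, 1] with hsi
  have hdisj : ∀ i ∈ (Finset.univ : Finset (Fin (m + 3))),
      ∀ j ∈ (Finset.univ : Finset (Fin (m + 3))), i ≠ j → Disjoint (si i) (si j) := by
    intro i _ j _ hij
    rw [Finset.disjoint_left]
    intro v hi hj
    rw [hsi, Finset.mem_filter, Finset.mem_sdiff] at hi hj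
    have hg := hGood v hi.1.2
    have k1 := (KR.localHeight_pos_iff v (hx i)).1 hi.2
    have k2 := (KR.localHeight_pos_iff v (hx j)).1 hj.2
    rw [hg.1, one_mul] at k1 k2
    exact KR.two_forms v (hg.1 i) (hg.1 j) (hg.2 i j hij) k1 k2
  have hlogN : Real.log (nn (N0 \ T)) = Real.log (nn N0 / nn T) := by
    rw [Real.log_div (nn_pos _).ne' (nn_pos _).ne', KR.log_nn, KR.log_nn, KR.log_nn,
      ← Finset.sum_sdiff hTN]
    ring
  have hsum : ∑ i, Real.log (nn (si i)) ≤ Real.log (nn N0 / nn T) := by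
    rw [← hlogN]
    have h1 : ∑ i, Real.log (nn (si i)) = ∑ v ∈ Finset.univ.biUnion si, Real.log (Nv v) := by
      rw [Finset.sum_biUnion hdisj]
      exact Finset.sum_congr rfl fun i _ => KR.log_nn (si i)
    rw [h1, KR.log_nn]
    refine Finset.sum_le_sum_of_subset_of_nonneg ?_ fun v _ _ => hlogpos v
    intro v hv
    obtain ⟨i, _, hi⟩ := Finset.mem_biUnion.1 hv
    exact (Finset.mem_filter.1 hi).1
  have hq : 3 ≤ m + 3 := by omega
  obtain ⟨s, hs⟩ := KR.three_small hq (fun i => Real.log (nn (si i))) _ hsum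
  refine ⟨s, (Finset.univ : Finset (Fin 3)).biUnion fun k => si (finRotate (m + 3) ^ (k : ℕ) • s),
    ?_, ?_⟩
  · intro v hv
    by_contra hcon
    rw [not_or] at hcon
    obtain ⟨k1, k2⟩ := hcon
    have hg := hGood v k1
    refine KR.sp_tt (KR.tri_ne hq ha s) (fun i => hx _) (KR.tri_good hq hg s) ?_ hv
    intro k hk
    apply k2
    refine Finset.mem_biUnion.2 ⟨k, Finset.mem_univ _, ?_⟩
    rw [hsi, Finset.mem_filter, Finset.mem_sdiff]
    refine ⟨⟨?_, k1⟩, hk⟩
    by_contra hvN
    rw [hN0, mem_bd hw, not_not] at hvN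
    obtain ⟨_, g1, g2, g3⟩ := choose_snoc ξ w (fun a => fv v a = 1) (hfneg v) hvN
    have h2 : ∀ i, fv v (form (sec ξ i) ![w, 1]) = 1 :=
      choose_vec ξ w (fun a => fv v a = 1) (hfneg v) (map_one _) g1 g2 g3
    have hm : m2 v ![w, 1] = 1 := by
      show max (fv v w) (fv v 1) = 1
      rw [g1, map_one, max_self]
    have h4 := hk
    unfold tri at h4
    rw [KR.localHeight_eq, h2, hm, hg.1] at h4
    simp at h4
  · have hr0 : 0 < nn N0 / nn T := div_pos (nn_pos _) (nn_pos _)
    have hfin : Real.log (nn ((Finset.univ : Finset (Fin 3)).biUnion fun k =>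
        si (finRotate (m + 3) ^ (k : ℕ) • s))) ≤
        Real.log ((nn N0 / nn T) ^ (3 / ((m : ℝ) + 3))) := by
      rw [Real.log_rpow hr0]
      have hcast : ((m + 3 : ℕ) : ℝ) = (m : ℝ) + 3 := by push_cast; ring
      rw [hcast] at hs
      refine le_trans (le_of_eq ?_) hs
      rw [KR.log_nn, Finset.sum_biUnion]
      · exact Finset.sum_congr rfl fun k _ => (KR.log_nn _).symm
      · intro i _ j _ hij
        exact hdisj _ (Finset.mem_univ _) _ (Finset.mem_univ _)
          fun h' => hij (KR.rotate_inj hq s h')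
    exact (Real.log_le_log_iff (nn_pos _) (Real.rpow_pos_of_pos hr0 _)).1 hfin

end Pool.Agent.TH876.MN
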