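import Mathlib
import Pool.Agent.TH876.KR.Sets
import Pool.Agent.TH876.MN.Def

set_option autoImplicit false

namespace Pool.Agent.TH876.MN

open NumberField IsDedekindDomain Finset Pool.Agent.H691R3 Pool.Agent.TH876.Loc
open Pool.Agent.TH876.KR (form localHeight tt tri m2 GoodPr)

variable {K : Type} [Field K] [NumberField K]

private theorem fibre_inj {m : ℕ} {ξ : Fin m → K}
    (ha : ∀ i j, i ≠ j → form (sec ξ i) (sec ξ j) ≠ 0) (s : Fin (m + 3)) {w w' : K}
    (hw : ∀ i, form (sec ξ i) ![w, 1] ≠ 0) (hw' : ∀ i, form (sec ξ i) ![w', 1] ≠ 0)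
    (h : tt (tri (sec ξ) s) ![w, 1] = tt (tri (sec ξ) s) ![w', 1]) : w = w' := by
  obtain ⟨c, hc⟩ := KR.tt_inj (KR.tri_ne (by omega) ha s) (fun i => hw _) (fun i => hw' _) h
  have h0 := congrFun hc 0
  have h1 := congrFun hc 1
  simp only [Pi.smul_apply, smul_eq_mul, Matrix.cons_val_zero, Matrix.cons_val_one] at h0 h1
  rw [mul_one] at h1
  rw [h1, one_mul] at h0
  exact h0.symm

variable (K) in
/-- the points of a fibre -/
theorem fibre (m : ℕ) (hc : ChooseSec K m) (hl : LightSets K) (hp : PowCard K) :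
    FibreBound K m := by
  classical
  intro ε hε
  obtain ⟨C, hC1, hLS⟩ := hl
  have hδ : 0 < ε / 2 := by linarith
  obtain ⟨_, D0, hD0, hsum⟩ := KR.sum_sets K C hC1 (ε / 2) hδ
  obtain ⟨D1, hD1, hpow⟩ := hp C hC1 (ε / 2) hδ
  have hC0 : 0 < C := by linarith
  have hD10 : 0 < D1 := by linarith
  refine ⟨((m : ℝ) + 3) * C * D0 * D1, by positivity, ?_⟩
  intro X hX ξ hξ hξX W hW
  have hX0 : 0 < X := by linarith
  have hn1 : 1 ≤ nn (bd ξ) := one_le_nn _
  have hn0 : 0 < nn (bd ξ) := by linarith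
  set e : ℝ := 3 / ((m : ℝ) + 3) with he
  have he0 : 0 ≤ e := by positivity
  have he1 : e ≤ 1 := by
    rw [he, div_le_one (by positivity)]
    have : (0 : ℝ) ≤ m := Nat.cast_nonneg m
    linarith
  have hq1 : 1 ≤ X / nn (bd ξ) := by rwa [one_le_div hn0]
  have hqX : X / nn (bd ξ) ≤ X := div_le_self hX0.le hn1
  set M : ℝ := (X / nn (bd ξ)) ^ e with hM
  have hM1 : 1 ≤ M := Real.one_le_rpow hq1 he0
  have hM0 : 0 < M := by linarith
  have hMX : M ≤ X := by
    have h1 : M ≤ (X / nn (bd ξ)) ^ (1 : ℝ) := Real.rpow_le_rpow_of_exponent_le hq1 he1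
    rw [Real.rpow_one] at h1
    exact h1.trans hqX
  -- the choices
  have hch : ∀ w : K, ∃ (s : Fin (m + 3)) (u : Finset (Pr K)), w ∈ W →
      (∀ v ∈ sp (tt (tri (sec ξ) s) ![w, 1]), v ∈ bd ξ ∨ v ∈ u) ∧ nn u ≤ M := by
    intro w
    by_cases hw : w ∈ W
    · obtain ⟨h1, h2⟩ := hW w hw
      obtain ⟨_, _, s, u, h3, h4⟩ := hc ξ hξ w h1
      refine ⟨s, u, fun _ => ⟨h3, h4.trans ?_⟩⟩
      refine Real.rpow_le_rpow ?_ ?_ he0
      · exact div_nonneg (nn_pos _).le hn0.le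
      · exact div_le_div_of_nonneg_right h2 hn0.le
    · exact ⟨⟨0, by omega⟩, ∅, fun h => absurd h hw⟩
  choose S u hSu using hch
  have ha : W.Nonempty → ∀ i j, i ≠ j → form (sec ξ i) (sec ξ j) ≠ 0 := by
    rintro ⟨w, hw⟩
    exact (hc ξ hξ w (hW w hw).1).1
  have hform : ∀ w ∈ W, ∀ i, form (sec ξ i) ![w, 1] ≠ 0 := fun w hw =>
    (hc ξ hξ w (hW w hw).1).2.1
  -- one piece
  have hpiece : ∀ (s : Fin (m + 3)) (u' : Finset (Pr K)),
      (((W.filter fun w => (S w, u w) = (s, u')).card : ℕ) : ℝ) ≤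
        C * C ^ (bd ξ).card * C ^ u'.card := by
    intro s u'
    set G := W.filter fun w => (S w, u w) = (s, u') with hG
    have hGm : ∀ w ∈ G, w ∈ W ∧ S w = s ∧ u w = u' := by
      intro w hw
      obtain ⟨h1, h2⟩ := Finset.mem_filter.1 hw
      exact ⟨h1, (Prod.mk.inj h2).1, (Prod.mk.inj h2).2⟩
    have h1 : (G.image fun w => tt (tri (sec ξ) s) ![w, 1]).card = G.card := by
      refine Finset.card_image_of_injOn ?_
      intro w hw w' hw' hww
      exact fibre_inj (ha ⟨w, (hGm w hw).1⟩) s (hform w (hGm w hw).1)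
        (hform w' (hGm w' hw').1) hww
    have h2 := hLS (bd ξ ∪ u') (G.image fun w => tt (tri (sec ξ) s) ![w, 1]) (by
      intro t ht
      obtain ⟨w, hw, rfl⟩ := Finset.mem_image.1 ht
      obtain ⟨hwW, hs, hu⟩ := hGm w hw
      refine ⟨KR.Pt_tt (KR.tri_ne (by omega) (ha ⟨w, hwW⟩) s) (fun i => hform w hwW _), ?_⟩
      intro v hv
      rw [Finset.mem_union]
      rw [← hs] at hv
      have h3 := (hSu w hwW).1 v hv
      rwa [hu] at h3)
    rw [h1] at h2
    refine h2.trans ?_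
    have h3 : (bd ξ ∪ u').card + 1 ≤ 1 + (bd ξ).card + u'.card := by
      have := Finset.card_union_le (bd ξ) u'
      omega
    refine (pow_le_pow_right₀ hC1 h3).trans (le_of_eq ?_)
    rw [pow_add, pow_add, pow_one]
  -- the sum over the pieces
  have hcard : (W.card : ℝ) ≤ ∑ s : Fin (m + 3), ∑ u' ∈ W.image u,
      C * C ^ (bd ξ).card * C ^ u'.card := by
    have h1 : W.card = ∑ p ∈ (Finset.univ : Finset (Fin (m + 3))) ×ˢ W.image u,
        (W.filter fun w => (S w, u w) = p).card := by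
      refine Finset.card_eq_sum_card_fiberwise ?_
      intro w hw
      rw [Finset.mem_coe, Finset.mem_product]
      exact ⟨Finset.mem_univ _, Finset.mem_image_of_mem u hw⟩
    rw [h1, Nat.cast_sum, ← Finset.sum_product']
    exact Finset.sum_le_sum fun p _ => hpiece p.1 p.2
  have hU : ∑ u' ∈ W.image u, C ^ u'.card ≤ D0 * M ^ (1 + ε / 2) := by
    refine hsum M hM1 _ ?_
    intro s hs
    obtain ⟨w, hw, rfl⟩ := Finset.mem_image.1 hs
    exact (hSu w hw).2
  have h2 : ∑ s : Fin (m + 3), ∑ u' ∈ W.image u, C * C ^ (bd ξ).card * C ^ u'.card =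
      ((m : ℝ) + 3) * (C * C ^ (bd ξ).card * ∑ u' ∈ W.image u, C ^ u'.card) := by
    rw [Finset.sum_const, Finset.card_univ, Fintype.card_fin, nsmul_eq_mul, ← Finset.mul_sum]
    push_cast
    ring
  rw [h2] at hcard
  have h3 : C ^ (bd ξ).card ≤ D1 * X ^ (ε / 2) := by
    refine (hpow (bd ξ)).trans (mul_le_mul_of_nonneg_left ?_ hD10.le)
    exact Real.rpow_le_rpow hn0.le hξX hδ.le
  have h4 : M ^ (1 + ε / 2) ≤ M * X ^ (ε / 2) := by
    rw [Real.rpow_add hM0, Real.rpow_one]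
    exact mul_le_mul_of_nonneg_left (Real.rpow_le_rpow hM0.le hMX hδ.le) hM0.le
  have h5 : X ^ ε = X ^ (ε / 2) * X ^ (ε / 2) := by
    rw [← Real.rpow_add hX0]
    congr 1
    ring
  have hXe : 0 < X ^ (ε / 2) := Real.rpow_pos_of_pos hX0 _
  calc (W.card : ℝ) ≤ _ := hcard
    _ ≤ ((m : ℝ) + 3) * (C * (D1 * X ^ (ε / 2)) * (D0 * (M * X ^ (ε / 2)))) := by
        have hm : (0 : ℝ) ≤ (m : ℝ) + 3 := by positivity
        refine mul_le_mul_of_nonneg_left ?_ hm
        refine mul_le_mul (mul_le_mul_of_nonneg_left h3 hC0.le) (hU.trans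
          (mul_le_mul_of_nonneg_left h4 hD0.le)) ?_ (by positivity)
        exact Finset.sum_nonneg fun _ _ => by positivity
    _ = ((m : ℝ) + 3) * C * D0 * D1 * X ^ ε * M := by
        rw [h5]
        ring

end Pool.Agent.TH876.MN
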