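import Mathlib
import Pool.Agent.TH876.MN.Def

set_option autoImplicit false

namespace Pool.Agent.TH876.MN

open NumberField IsDedekindDomain Finset Pool.Agent.H691R3 Pool.Agent.TH876.Loc
open Pool.Agent.TH876.KR (form localHeight tt tri m2 GoodPr)

variable {K : Type} [Field K] [NumberField K]

/-- a unit for the valuation is a unit for the absolute value -/
private theorem finM_unit (v : Pr K) {z : K} (h : v.valuation K z = 1) : fv v z = 1 := by
  have h1 : fv v z = _ := NumberField.FinitePlace.norm_embedding' (v := v) (x := z)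
  rw [h1, h]
  simp

variable (K) in
/-- the final statement -/
theorem finM (m : ℕ) (hb : CountBound K m (7 / 10)) (ε : ℝ) (hε : 0 < ε) :
    ∃ C : ℝ, ∀ X H : ℝ, 1 ≤ X → 1 ≤ H →
      {x : Fin m → K | (∀ i, x i ≠ 0 ∧ x i ≠ 1) ∧ (∀ i j, i ≠ j → x i ≠ x j) ∧
        (∃ b : Finset (HeightOneSpectrum (𝓞 K)),
          (∏ v ∈ b, (Ideal.absNorm v.asIdeal : ℝ)) ≤ X ∧ ∀ v, v ∉ b →
            (∀ i, v.valuation K (x i) = 1 ∧ v.valuation K (1 - x i) = 1) ∧
            ∀ i j, i ≠ j → v.valuation K (x i - x j) = 1) ∧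
        ∀ i, Height.logHeight₁ (x i) ≤ H}.Finite ∧
      ({x : Fin m → K | (∀ i, x i ≠ 0 ∧ x i ≠ 1) ∧ (∀ i j, i ≠ j → x i ≠ x j) ∧
        (∃ b : Finset (HeightOneSpectrum (𝓞 K)),
          (∏ v ∈ b, (Ideal.absNorm v.asIdeal : ℝ)) ≤ X ∧ ∀ v, v ∉ b →
            (∀ i, v.valuation K (x i) = 1 ∧ v.valuation K (1 - x i) = 1) ∧
            ∀ i j, i ≠ j → v.valuation K (x i - x j) = 1) ∧
        ∀ i, Height.logHeight₁ (x i) ≤ H}.ncard : ℝ) ≤ C * H * X ^ (7 / 10 + ε) := by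
  classical
  obtain ⟨C, hC0, hC⟩ := hb ε hε
  refine ⟨C, fun X H hX hH => ?_⟩
  set Z : Set (Fin m → K) :=
    {x : Fin m → K | (∀ i, x i ≠ 0 ∧ x i ≠ 1) ∧ (∀ i j, i ≠ j → x i ≠ x j) ∧
        (∃ b : Finset (HeightOneSpectrum (𝓞 K)),
          (∏ v ∈ b, (Ideal.absNorm v.asIdeal : ℝ)) ≤ X ∧ ∀ v, v ∉ b →
            (∀ i, v.valuation K (x i) = 1 ∧ v.valuation K (1 - x i) = 1) ∧
            ∀ i j, i ≠ j → v.valuation K (x i - x j) = 1) ∧
        ∀ i, Height.logHeight₁ (x i) ≤ H} with hZ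
  have hfin : Z.Finite := by
    have h1 : {f : Fin m → K | ∀ i, f i ∈ {z : K | Height.logHeight₁ z ≤ H}}.Finite :=
      Set.Finite.pi' fun _ => NumberField.finite_setOfPred_logHeight₁_le K H
    refine h1.subset ?_
    intro x hx i
    exact hx.2.2.2 i
  refine ⟨hfin, ?_⟩
  rw [Set.ncard_eq_toFinset_card _ hfin]
  refine hC X H hX hH _ ?_
  intro x hx
  rw [Set.Finite.mem_toFinset] at hx
  obtain ⟨h1, h2, ⟨b, hbX, hbv⟩, h4⟩ := hx
  have hcfg : Cfg x := ⟨fun i => ⟨(h1 i).1, sub_ne_zero.2 (h1 i).2.symm⟩,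
    fun i j hij => sub_ne_zero.2 (h2 i j hij)⟩
  refine ⟨hcfg, ?_, h4⟩
  have hsub : bd x ⊆ b := by
    intro v hv
    by_contra hvb
    rw [mem_bd hcfg] at hv
    apply hv
    obtain ⟨k1, k2⟩ := hbv v hvb
    exact ⟨fun i => ⟨finM_unit v (k1 i).1, finM_unit v (k1 i).2⟩,
      fun i j hij => finM_unit v (k2 i j hij)⟩
  exact (nn_mono hsub).trans hbX

end Pool.Agent.TH876.MN
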