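import Mathlib
import Pool.Agent.TH876.MN.Def

set_option autoImplicit false

/-!
# One of the five cross ratios sees a large part of the bad primes
-/

namespace Pool.Agent.TH876.MN

open NumberField IsDedekindDomain Finset Pool.Agent.H691R3 Pool.Agent.TH876.Loc
open Pool.Agent.TH876.KR (form localHeight tt tri m2 GoodPr)

variable {K : Type} [Field K] [NumberField K]

private theorem five_log_nonneg (v : Pr K) : 0 ≤ Real.log (Nv v) := by
  have h := one_le_nn ({v} : Finset (Pr K))
  unfold nn at h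
  rw [prod_singleton] at h
  exact Real.log_nonneg h

private theorem five_log_nn (s : Finset (Pr K)) :
    Real.log (nn s) = ∑ v ∈ s, Real.log (Nv v) := by
  unfold nn
  exact Real.log_prod fun v _ => (Nv_pos v).ne'

/-- one of the five cross ratios has a large bad set -/
theorem exists_aut {x : Fin 2 → K} (hx : Cfg x)
    (hcfg : ∀ i : Fin 5, Cfg (aut i x))
    (hthree : ∀ v : Pr K, ¬ Gd v x →
      ∃ T : Finset (Fin 5), T.card = 3 ∧ ∀ i ∈ T, ¬ Gd v (![aut i x 0] : Fin 1 → K)) :
    ∃ i : Fin 5, nn (bd x) ≤ nn (bd (![aut i x 0] : Fin 1 → K)) ^ ((5 : ℝ) / 3) := by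
  classical
  set b : Fin 5 → Finset (Pr K) := fun i => bd (![aut i x 0] : Fin 1 → K) with hb
  have hC : ∀ i, Cfg (![aut i x 0] : Fin 1 → K) := by
    intro i
    refine ⟨fun j => ?_, fun j k hjk => absurd (Subsingleton.elim j k) hjk⟩
    rw [Subsingleton.elim j 0]
    exact (hcfg i).1 0
  have hsum : 3 * Real.log (nn (bd x)) ≤ ∑ i, Real.log (nn (b i)) := by
    have h1 : 3 * Real.log (nn (bd x)) = ∑ v ∈ bd x, 3 * Real.log (Nv v) := by
      rw [five_log_nn, mul_sum]
    have h2 : ∑ v ∈ bd x, 3 * Real.log (Nv v) ≤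
        ∑ v ∈ bd x, ∑ i, (if v ∈ b i then Real.log (Nv v) else 0) := by
      refine sum_le_sum fun v hv => ?_
      obtain ⟨T, hT, hT2⟩ := hthree v ((mem_bd hx v).1 hv)
      have h3 : ∑ i ∈ T, (if v ∈ b i then Real.log (Nv v) else 0) = 3 * Real.log (Nv v) := by
        rw [sum_congr rfl fun i hi => if_pos ((mem_bd (hC i) v).2 (hT2 i hi)), sum_const, hT,
          nsmul_eq_mul]
        norm_num
      rw [← h3]
      refine sum_le_sum_of_subset_of_nonneg (subset_univ T) fun i _ _ => ?_
      split_ifs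
      · exact five_log_nonneg v
      · exact le_rfl
    have h4 : ∀ i, ∑ v ∈ bd x, (if v ∈ b i then Real.log (Nv v) else 0) ≤
        Real.log (nn (b i)) := by
      intro i
      rw [five_log_nn, ← sum_filter]
      refine sum_le_sum_of_subset_of_nonneg ?_ fun v _ _ => five_log_nonneg v
      intro v hv
      exact (mem_filter.1 hv).2
    rw [h1]
    refine h2.trans ?_
    rw [sum_comm]
    exact sum_le_sum fun i _ => h4 i
  have hex : ∃ i, 3 / 5 * Real.log (nn (bd x)) ≤ Real.log (nn (b i)) := by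
    by_contra hcon
    push Not at hcon
    have h5 : ∑ i, Real.log (nn (b i)) < ∑ _i : Fin 5, 3 / 5 * Real.log (nn (bd x)) :=
      sum_lt_sum_of_nonempty univ_nonempty fun i _ => hcon i
    rw [sum_const, card_univ, Fintype.card_fin, nsmul_eq_mul] at h5
    push_cast at h5
    linarith
  obtain ⟨i, hi⟩ := hex
  refine ⟨i, ?_⟩
  have h6 := one_le_nn (b i)
  rw [← Real.log_le_log_iff (nn_pos _) (Real.rpow_pos_of_pos (by linarith) _),
    Real.log_rpow (by linarith)]
  show Real.log (nn (bd x)) ≤ 5 / 3 * Real.log (nn (b i))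
  linarith

end Pool.Agent.TH876.MN
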