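import Mathlib
import Pool.Agent.TH876.MN.Def

set_option autoImplicit false

namespace Pool.Agent.TH876.MN

open NumberField IsDedekindDomain Finset Pool.Agent.H691R3 Pool.Agent.TH876.Loc
open Pool.Agent.TH876.KR (form localHeight tt tri m2 GoodPr)

private theorem layer_idx {t : ℝ} (ht : 1 ≤ t) :
    (2 : ℝ) ^ (Nat.log 2 ⌊t⌋₊) ≤ t ∧ t < (2 : ℝ) ^ (Nat.log 2 ⌊t⌋₊ + 1) := by
  have h1 : 1 ≤ ⌊t⌋₊ := (Nat.one_le_floor_iff t).2 ht
  constructor
  · have h2 : 2 ^ (Nat.log 2 ⌊t⌋₊) ≤ ⌊t⌋₊ := Nat.pow_log_le_self 2 (by omega)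
    have h3 : ((2 ^ (Nat.log 2 ⌊t⌋₊) : ℕ) : ℝ) ≤ (⌊t⌋₊ : ℝ) := by exact_mod_cast h2
    have h4 : (⌊t⌋₊ : ℝ) ≤ t := Nat.floor_le (by linarith)
    push_cast at h3
    linarith
  · have h2 : ⌊t⌋₊ < 2 ^ (Nat.log 2 ⌊t⌋₊ + 1) := Nat.lt_pow_succ_log_self (by norm_num) _
    have h3 : t < ((2 ^ (Nat.log 2 ⌊t⌋₊ + 1) : ℕ) : ℝ) := (Nat.floor_lt (by linarith)).1 h2
    push_cast at h3
    exact h3

/-- a sum over layers -/
theorem layer : LayerBound := by
  classical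
  intro e ε he hε
  have hlog2 : 0 < Real.log 2 := Real.log_pos (by norm_num)
  refine ⟨2 ^ (e + ε) * (1 / (ε * Real.log 2) + 1), by positivity, ?_⟩
  intro α F r M X hM hX hF hG
  have hX0 : 0 < X := by linarith
  set N := Nat.log 2 ⌊X⌋₊ with hN
  have hmaps : ∀ a ∈ F, Nat.log 2 ⌊r a⌋₊ ∈ Finset.range (N + 1) := by
    intro a ha
    rw [Finset.mem_range, Nat.lt_succ_iff]
    exact Nat.log_mono_right (Nat.floor_le_floor (hF a ha).2)
  rw [← Finset.sum_fiberwise_of_maps_to hmaps]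
  have hXN : (2 : ℝ) ^ N ≤ X := (layer_idx hX).1
  have hlayer : ∀ k ∈ Finset.range (N + 1),
      ∑ a ∈ F with Nat.log 2 ⌊r a⌋₊ = k, (r a) ^ (-e) ≤ M * 2 ^ (e + ε) * X ^ ε := by
    intro k hk
    have hk' : k ≤ N := by
      rw [Finset.mem_range] at hk
      omega
    have hkX : (2 : ℝ) ^ k ≤ X :=
      le_trans (pow_le_pow_right₀ (by norm_num) hk') hXN
    have h2k : (1 : ℝ) ≤ 2 ^ k := one_le_pow₀ (by norm_num)
    have h2k0 : (0 : ℝ) < 2 ^ k := by positivity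
    set G := F.filter (fun a => Nat.log 2 ⌊r a⌋₊ = k) with hGdef
    have hcard : (G.card : ℝ) ≤ M * (2 ^ (k + 1)) ^ (e + ε) := by
      refine hG _ (one_le_pow₀ (by norm_num)) G (Finset.filter_subset _ _) ?_
      intro a ha
      rw [hGdef, Finset.mem_filter] at ha
      have := (layer_idx (hF a ha.1).1).2
      rw [ha.2] at this
      exact this.le
    have hterm : ∀ a ∈ G, (r a) ^ (-e) ≤ ((2 : ℝ) ^ k) ^ (-e) := by
      intro a ha
      rw [hGdef, Finset.mem_filter] at ha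
      have := (layer_idx (hF a ha.1).1).1
      rw [ha.2] at this
      exact Real.rpow_le_rpow_of_nonpos h2k0 this (by linarith)
    calc ∑ a ∈ G, (r a) ^ (-e) ≤ ∑ a ∈ G, ((2 : ℝ) ^ k) ^ (-e) := Finset.sum_le_sum hterm
      _ = (G.card : ℝ) * ((2 : ℝ) ^ k) ^ (-e) := by rw [Finset.sum_const, nsmul_eq_mul]
      _ ≤ (M * (2 ^ (k + 1)) ^ (e + ε)) * ((2 : ℝ) ^ k) ^ (-e) :=
          mul_le_mul_of_nonneg_right hcard (Real.rpow_nonneg h2k0.le _)
      _ = M * 2 ^ (e + ε) * ((2 : ℝ) ^ k) ^ ε := by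
          rw [pow_succ, Real.mul_rpow h2k0.le (by norm_num : (0 : ℝ) ≤ 2),
            Real.rpow_add h2k0, Real.rpow_neg h2k0.le]
          have hne : ((2 : ℝ) ^ k) ^ e ≠ 0 := (Real.rpow_pos_of_pos h2k0 e).ne'
          field_simp
      _ ≤ M * 2 ^ (e + ε) * X ^ ε := by
          have : ((2 : ℝ) ^ k) ^ ε ≤ X ^ ε := Real.rpow_le_rpow h2k0.le hkX hε.le
          exact mul_le_mul_of_nonneg_left this (by positivity)
  have hnum : ((N : ℝ) + 1) ≤ (1 / (ε * Real.log 2) + 1) * X ^ ε := by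
    have h1 : (N : ℝ) * Real.log 2 ≤ Real.log X := by
      rw [← Real.log_pow]
      exact Real.log_le_log (by positivity) hXN
    have h2 : Real.log X ≤ X ^ ε / ε := Real.log_le_rpow_div hX0.le hε
    have h3 : (1 : ℝ) ≤ X ^ ε := Real.one_le_rpow hX hε.le
    have h4 : (N : ℝ) ≤ X ^ ε / ε / Real.log 2 := by
      rw [le_div_iff₀ hlog2]
      linarith
    have h5 : X ^ ε / ε / Real.log 2 = 1 / (ε * Real.log 2) * X ^ ε := by
      field_simp
    rw [h5] at h4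
    linarith
  calc ∑ k ∈ Finset.range (N + 1), ∑ a ∈ F with Nat.log 2 ⌊r a⌋₊ = k, (r a) ^ (-e)
      ≤ ∑ _k ∈ Finset.range (N + 1), M * 2 ^ (e + ε) * X ^ ε := Finset.sum_le_sum hlayer
    _ = ((N : ℝ) + 1) * (M * 2 ^ (e + ε) * X ^ ε) := by
        rw [Finset.sum_const, Finset.card_range, nsmul_eq_mul]
        push_cast
        ring
    _ ≤ ((1 / (ε * Real.log 2) + 1) * X ^ ε) * (M * 2 ^ (e + ε) * X ^ ε) :=
        mul_le_mul_of_nonneg_right hnum (by positivity)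
    _ = 2 ^ (e + ε) * (1 / (ε * Real.log 2) + 1) * M * X ^ (2 * ε) := by
        have : X ^ (2 * ε) = X ^ ε * X ^ ε := by
          rw [← Real.rpow_add hX0]
          ring_nf
        rw [this]
        ring

end Pool.Agent.TH876.MN
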