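import Mathlib
import Pool.Agent.TH876.MN.Def

set_option autoImplicit false

namespace Pool.Agent.TH876.MN

open NumberField IsDedekindDomain Finset Pool.Agent.H691R3 Pool.Agent.TH876.Loc
open Pool.Agent.TH876.KR (form localHeight tt tri m2 GoodPr)

variable {K : Type} [Field K] [NumberField K]

omit [NumberField K] in
private theorem step_cfg_init {m : ℕ} {x : Fin (m + 1) → K} (hx : Cfg x) :
    Cfg (Fin.init x : Fin m → K) := by
  refine ⟨fun i => hx.1 i.castSucc, fun i j hij => ?_⟩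
  exact hx.2 i.castSucc j.castSucc (fun h => hij (Fin.castSucc_injective _ h))

private theorem step_gd_init {m : ℕ} {x : Fin (m + 1) → K} {v : Pr K} (hx : Gd v x) :
    Gd v (Fin.init x : Fin m → K) := by
  refine ⟨fun i => hx.1 i.castSucc, fun i j hij => ?_⟩
  exact hx.2 i.castSucc j.castSucc (fun h => hij (Fin.castSucc_injective _ h))

private theorem step_bd_init {m : ℕ} {x : Fin (m + 1) → K} (hx : Cfg x) :
    bd (Fin.init x : Fin m → K) ⊆ bd x := by
  intro v hv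
  rw [mem_bd (step_cfg_init hx)] at hv
  rw [mem_bd hx]
  exact fun h => hv (step_gd_init h)

variable (K) in
/-- one more point -/
theorem step (m : ℕ) (hm : 2 ≤ m) (hb : CountBound K m (7 / 10)) (hl : LayerBound)
    (hf : FibreBound K m) : CountBound K (m + 1) (7 / 10) := by
  classical
  intro ε hε
  have hε4 : 0 < ε / 4 := by positivity
  obtain ⟨C, hC0, hC⟩ := hb (ε / 4) hε4
  obtain ⟨D, hD0, hD⟩ := hf (ε / 4) hε4
  obtain ⟨E, hE0, hE⟩ := hl (7 / 10) (ε / 4) (by norm_num) hε4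
  refine ⟨D * E * C, by positivity, ?_⟩
  intro X H hX hH F hF
  have hX0 : 0 < X := by linarith
  -- the images
  set I : Finset (Fin m → K) := F.image (fun x => (Fin.init x : Fin m → K)) with hI
  have hIprop : ∀ ξ ∈ I, Cfg ξ ∧ nn (bd ξ) ≤ X ∧ ∀ i, Height.logHeight₁ (ξ i) ≤ H := by
    intro ξ hξ
    rw [hI, Finset.mem_image] at hξ
    obtain ⟨x, hxF, rfl⟩ := hξ
    obtain ⟨h1, h2, h3⟩ := hF x hxF
    exact ⟨step_cfg_init h1, le_trans (nn_mono (step_bd_init h1)) h2, fun i => h3 i.castSucc⟩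
  -- sum over the layers
  have hlay : ∑ ξ ∈ I, (nn (bd ξ)) ^ (-(7 / 10 : ℝ)) ≤ E * (C * H) * X ^ (2 * (ε / 4)) := by
    refine hE (Fin m → K) I (fun ξ => nn (bd ξ)) (C * H) X (by positivity) hX ?_ ?_
    · intro ξ hξ
      exact ⟨one_le_nn _, (hIprop ξ hξ).2.1⟩
    · intro R hR G hG hGR
      have := hC R H hR hH G (fun ξ hξ => ⟨(hIprop ξ (hG hξ)).1, hGR ξ hξ,
        (hIprop ξ (hG hξ)).2.2⟩)
      exact this
  -- one fibre
  have hfib : ∀ ξ ∈ I, ((F.filter (fun x => (Fin.init x : Fin m → K) = ξ)).card : ℝ) ≤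
      D * X ^ (7 / 10 + ε / 4) * (nn (bd ξ)) ^ (-(7 / 10 : ℝ)) := by
    intro ξ hξ
    obtain ⟨hξ1, hξ2, -⟩ := hIprop ξ hξ
    set W : Finset K := (F.filter (fun x => (Fin.init x : Fin m → K) = ξ)).image
      (fun x => x (Fin.last m)) with hW
    have hcard : W.card = (F.filter (fun x => (Fin.init x : Fin m → K) = ξ)).card := by
      rw [hW]
      refine Finset.card_image_of_injOn ?_
      intro x hx y hy hxy
      have hx2 : (Fin.init x : Fin m → K) = ξ := by simpa using (Finset.mem_filter.1 hx).2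
      have hy2 : (Fin.init y : Fin m → K) = ξ := by simpa using (Finset.mem_filter.1 hy).2
      have e1 : (Fin.snoc (Fin.init x) (x (Fin.last m)) : Fin (m + 1) → K) = x :=
        Fin.snoc_init_self x
      have e2 : (Fin.snoc (Fin.init y) (y (Fin.last m)) : Fin (m + 1) → K) = y :=
        Fin.snoc_init_self y
      rw [← e1, ← e2, hx2, hy2]
      simp only at hxy
      rw [hxy]
    have hW2 : ∀ w ∈ W, Cfg (Fin.snoc ξ w : Fin (m + 1) → K) ∧
        nn (bd (Fin.snoc ξ w : Fin (m + 1) → K)) ≤ X := by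
      intro w hw
      rw [hW, Finset.mem_image] at hw
      obtain ⟨x, hx, rfl⟩ := hw
      rw [Finset.mem_filter] at hx
      obtain ⟨hxF, hxξ⟩ := hx
      have e1 : (Fin.snoc ξ (x (Fin.last m)) : Fin (m + 1) → K) = x := by
        rw [← hxξ]
        exact Fin.snoc_init_self x
      rw [e1]
      exact ⟨(hF x hxF).1, (hF x hxF).2.1⟩
    have h1 := hD X hX ξ hξ1 hξ2 W hW2
    rw [hcard] at h1
    refine le_trans h1 ?_
    have hr : 0 < nn (bd ξ) := nn_pos _
    have hratio : 1 ≤ X / nn (bd ξ) := by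
      rw [le_div_iff₀ hr]
      linarith
    have hexp : (3 / ((m : ℝ) + 3)) ≤ 7 / 10 := by
      have hm' : (2 : ℝ) ≤ m := by exact_mod_cast hm
      rw [div_le_div_iff₀ (by linarith) (by norm_num)]
      linarith
    have h2 : (X / nn (bd ξ)) ^ (3 / ((m : ℝ) + 3)) ≤ (X / nn (bd ξ)) ^ (7 / 10 : ℝ) :=
      Real.rpow_le_rpow_of_exponent_le hratio hexp
    have h3 : (X / nn (bd ξ)) ^ (7 / 10 : ℝ) = X ^ (7 / 10 : ℝ) * (nn (bd ξ)) ^ (-(7 / 10 : ℝ)) := by
      rw [Real.div_rpow hX0.le hr.le, Real.rpow_neg hr.le, div_eq_mul_inv]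
    have h4 : X ^ (7 / 10 + ε / 4) = X ^ (7 / 10 : ℝ) * X ^ (ε / 4) := Real.rpow_add hX0 _ _
    calc D * X ^ (ε / 4) * (X / nn (bd ξ)) ^ (3 / ((m : ℝ) + 3))
        ≤ D * X ^ (ε / 4) * (X / nn (bd ξ)) ^ (7 / 10 : ℝ) :=
          mul_le_mul_of_nonneg_left h2 (by positivity)
      _ = D * X ^ (7 / 10 + ε / 4) * (nn (bd ξ)) ^ (-(7 / 10 : ℝ)) := by
          rw [h3, h4]; ring
  have hsum : (F.card : ℝ) = ∑ ξ ∈ I, ((F.filter (fun x => (Fin.init x : Fin m → K) = ξ)).card : ℝ) := by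
    rw [Finset.card_eq_sum_card_image (fun x => (Fin.init x : Fin m → K)) F]
    push_cast
    rfl
  rw [hsum]
  calc ∑ ξ ∈ I, ((F.filter (fun x => (Fin.init x : Fin m → K) = ξ)).card : ℝ)
      ≤ ∑ ξ ∈ I, D * X ^ (7 / 10 + ε / 4) * (nn (bd ξ)) ^ (-(7 / 10 : ℝ)) :=
        Finset.sum_le_sum hfib
    _ = D * X ^ (7 / 10 + ε / 4) * ∑ ξ ∈ I, (nn (bd ξ)) ^ (-(7 / 10 : ℝ)) := by
        rw [Finset.mul_sum]
    _ ≤ D * X ^ (7 / 10 + ε / 4) * (E * (C * H) * X ^ (2 * (ε / 4))) :=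
        mul_le_mul_of_nonneg_left hlay (by positivity)
    _ = D * E * C * H * (X ^ (7 / 10 + ε / 4) * X ^ (2 * (ε / 4))) := by ring
    _ = D * E * C * H * X ^ (7 / 10 + ε / 4 + 2 * (ε / 4)) := by
        rw [Real.rpow_add hX0 (7 / 10 + ε / 4) (2 * (ε / 4))]
    _ ≤ D * E * C * H * X ^ (7 / 10 + ε) := by
        refine mul_le_mul_of_nonneg_left ?_ (by positivity)
        exact Real.rpow_le_rpow_of_exponent_le hX (by linarith)

end Pool.Agent.TH876.MN
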