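import Mathlib
import Pool.Agent.TH876.MN.Def

set_option autoImplicit false

namespace Pool.Agent.TH876.MN

open NumberField IsDedekindDomain Finset Pool.Agent.H691R3 Pool.Agent.TH876.Loc
open Pool.Agent.TH876.KR (form localHeight tt tri m2 GoodPr)

variable {K : Type} [Field K] [NumberField K]

private theorem two_cfg_fst {y : Fin 2 → K} (h : Cfg y) : Cfg (![y 0] : Fin 1 → K) := by
  refine ⟨fun i => ?_, fun i j hij => absurd (Subsingleton.elim i j) hij⟩
  have : (![y 0] : Fin 1 → K) i = y 0 := by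
    rw [Subsingleton.elim i 0]; rfl
  rw [this]
  exact h.1 0

private theorem two_gd_fst {y : Fin 2 → K} {v : Pr K} (h : Gd v y) :
    Gd v (![y 0] : Fin 1 → K) := by
  refine ⟨fun i => ?_, fun i j hij => absurd (Subsingleton.elim i j) hij⟩
  have : (![y 0] : Fin 1 → K) i = y 0 := by
    rw [Subsingleton.elim i 0]; rfl
  rw [this]
  exact h.1 0

private theorem two_snoc (y : Fin 2 → K) :
    (Fin.snoc (![y 0] : Fin 1 → K) (y 1) : Fin (1 + 1) → K) = y := by
  funext j
  fin_cases j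
  · rfl
  · rfl

private theorem two_pow {X X' r : ℝ} (hr : 1 ≤ r) (hX' : 1 ≤ X') (h1 : X' ≤ X)
    (h2 : X' ≤ r ^ ((5 : ℝ) / 3)) :
    (X' / r) ^ ((3 : ℝ) / 4) ≤ X ^ ((7 : ℝ) / 10) * r ^ (-((2 : ℝ) / 3)) := by
  have hr0 : 0 < r := by linarith
  have hX0 : 0 < X' := by linarith
  have hXX : 0 < X := by linarith
  have h3 : X' ^ ((3 : ℝ) / 4) ≤ X ^ ((7 : ℝ) / 10) * r ^ ((1 : ℝ) / 12) := by
    have e : (3 : ℝ) / 4 = 7 / 10 + 1 / 20 := by norm_num
    rw [e, Real.rpow_add hX0]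
    refine mul_le_mul (Real.rpow_le_rpow hX0.le h1 (by norm_num)) ?_
      (Real.rpow_nonneg hX0.le _) (Real.rpow_nonneg hXX.le _)
    calc X' ^ ((1 : ℝ) / 20) ≤ (r ^ ((5 : ℝ) / 3)) ^ ((1 : ℝ) / 20) :=
          Real.rpow_le_rpow hX0.le h2 (by norm_num)
      _ = r ^ ((1 : ℝ) / 12) := by
          rw [← Real.rpow_mul hr0.le]; norm_num
  rw [Real.div_rpow hX0.le hr0.le, div_le_iff₀ (Real.rpow_pos_of_pos hr0 _)]
  refine h3.trans (le_of_eq ?_)
  rw [mul_assoc, ← Real.rpow_add hr0]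
  norm_num

variable (K) in
/-- configurations of five points -/
theorem two (hb : CountBound K 1 (2 / 3)) (hl : LayerBound) (hf : FibreBound K 1)
    (haut_cfg : ∀ x : Fin 2 → K, Cfg x → ∀ i, Cfg (aut i x))
    (haut_gd : ∀ x : Fin 2 → K, Cfg x → ∀ (i : Fin 5) (v : Pr K), Gd v x → Gd v (aut i x))
    (haut_inj : ∀ x y : Fin 2 → K, Cfg x → Cfg y → ∀ i, aut i x = aut i y → x = y)
    (haut_height : ∃ c : ℝ, 1 ≤ c ∧ ∀ (x : Fin 2 → K) (i : Fin 5) (H : ℝ), 1 ≤ H → Cfg x →
      (∀ j, Height.logHeight₁ (x j) ≤ H) → Height.logHeight₁ (aut i x 0) ≤ c * H)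
    (hexists : ∀ x : Fin 2 → K, Cfg x →
      ∃ i : Fin 5, nn (bd x) ≤ nn (bd (![aut i x 0] : Fin 1 → K)) ^ ((5 : ℝ) / 3)) :
    CountBound K 2 (7 / 10) := by
  classical
  intro ε hε
  have hε' : 0 < ε / 4 := by linarith
  obtain ⟨c, hc1, hc⟩ := haut_height
  obtain ⟨C1, hC1, hb'⟩ := hb (ε / 4) hε'
  obtain ⟨D1, hD1, hl'⟩ := hl (2 / 3) (ε / 4) (by norm_num) hε'
  obtain ⟨D2, hD2, hf'⟩ := hf (ε / 4) hε'
  have hc0 : 0 < c := by linarith
  refine ⟨5 * (D2 * (D1 * (C1 * c))), by positivity, ?_⟩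
  intro X H hX hH F hF
  have hX0 : 0 < X := by linarith
  have hcH : 1 ≤ c * H := by nlinarith
  choose! ι hι using hexists
  have hmain : ∀ i : Fin 5, ((F.filter fun x => ι x = i).card : ℝ)
      ≤ D2 * (D1 * (C1 * c)) * H * X ^ ((7 : ℝ) / 10 + ε) := by
    intro i
    set G := F.filter fun x => ι x = i with hG
    set g : (Fin 2 → K) → (Fin 1 → K) := fun x => ![aut i x 0] with hg
    have hGF : ∀ x ∈ G, x ∈ F ∧ ι x = i := fun x hx => Finset.mem_filter.1 hx
    have hsub1 : ∀ x ∈ G, nn (bd (g x)) ≤ nn (bd (aut i x)) := by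
      intro x hx
      have hcx := (hF x (hGF x hx).1).1
      refine nn_mono ?_
      intro v hv
      rw [mem_bd (two_cfg_fst (haut_cfg x hcx i))] at hv
      rw [mem_bd (haut_cfg x hcx i)]
      exact fun h => hv (two_gd_fst h)
    have hsub2 : ∀ x ∈ G, nn (bd (aut i x)) ≤ nn (bd x) := by
      intro x hx
      have hcx := (hF x (hGF x hx).1).1
      refine nn_mono ?_
      intro v hv
      rw [mem_bd (haut_cfg x hcx i)] at hv
      rw [mem_bd hcx]
      exact fun h => hv (haut_gd x hcx i v h)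
    have hfib : ∀ ξ ∈ G.image g, ((G.filter fun x => g x = ξ).card : ℝ)
        ≤ D2 * X ^ (ε / 4) * (X ^ ((7 : ℝ) / 10) * nn (bd ξ) ^ (-((2 : ℝ) / 3))) := by
      intro ξ hξ
      obtain ⟨x0, hx0, hx0ξ⟩ := Finset.mem_image.1 hξ
      set W := (G.filter fun x => g x = ξ).image fun x => aut i x 1 with hW
      have hWc : W.card = (G.filter fun x => g x = ξ).card := by
        refine Finset.card_image_of_injOn ?_
        intro x hx y hy hxy
        have hx' := Finset.mem_filter.1 (Finset.mem_coe.1 hx)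
        have hy' := Finset.mem_filter.1 (Finset.mem_coe.1 hy)
        refine haut_inj x y (hF x (hGF x hx'.1).1).1 (hF y (hGF y hy'.1).1).1 i ?_
        funext j
        fin_cases j
        · have h1 := congrFun (hx'.2.trans hy'.2.symm) 0
          exact h1
        · exact hxy
      have hcξ : Cfg ξ := by
        rw [← hx0ξ]
        exact two_cfg_fst (haut_cfg x0 (hF x0 (hGF x0 hx0).1).1 i)
      have hr1 : 1 ≤ nn (bd ξ) := one_le_nn _
      have hX'1 : 1 ≤ min X (nn (bd ξ) ^ ((5 : ℝ) / 3)) :=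
        le_min hX (Real.one_le_rpow hr1 (by norm_num))
      have hbound : ∀ x ∈ G, g x = ξ → nn (bd x) ≤ min X (nn (bd ξ) ^ ((5 : ℝ) / 3)) := by
        intro x hx hgx
        refine le_min (hF x (hGF x hx).1).2.1 ?_
        have h2 := hι x (hF x (hGF x hx).1).1
        rw [(hGF x hx).2] at h2
        rw [← hgx]
        exact h2
      have hrX : nn (bd ξ) ≤ min X (nn (bd ξ) ^ ((5 : ℝ) / 3)) := by
        have h3 := hbound x0 hx0 hx0ξ
        have h4 := (hsub1 x0 hx0).trans (hsub2 x0 hx0)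
        rw [hx0ξ] at h4
        exact h4.trans h3
      have h5 := hf' (min X (nn (bd ξ) ^ ((5 : ℝ) / 3))) hX'1 ξ hcξ hrX W ?_
      · rw [← hWc]
        refine h5.trans ?_
        have e1 : (3 : ℝ) / (((1 : ℕ) : ℝ) + 3) = 3 / 4 := by norm_num
        rw [e1]
        have h6 := two_pow hr1 hX'1 (min_le_left X _) (min_le_right X (nn (bd ξ) ^ ((5 : ℝ) / 3)))
        have h7 : (min X (nn (bd ξ) ^ ((5 : ℝ) / 3))) ^ (ε / 4) ≤ X ^ (ε / 4) :=
          Real.rpow_le_rpow (by linarith) (min_le_left _ _) hε'.le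
        refine mul_le_mul (mul_le_mul_of_nonneg_left h7 hD2.le) h6 ?_ (by positivity)
        exact Real.rpow_nonneg (div_nonneg (by linarith) (by linarith)) _
      · intro w hw
        obtain ⟨x, hx, rfl⟩ := Finset.mem_image.1 hw
        have hx' := Finset.mem_filter.1 hx
        have hcx := (hF x (hGF x hx'.1).1).1
        have h8 : (Fin.snoc ξ (aut i x 1) : Fin (1 + 1) → K) = aut i x := by
          rw [← hx'.2]
          exact two_snoc (aut i x)
        rw [h8]
        exact ⟨haut_cfg x hcx i, (hsub2 x hx'.1).trans (hbound x hx'.1 hx'.2)⟩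
    have hlay := hl' (Fin 1 → K) (G.image g) (fun ξ => nn (bd ξ)) (C1 * (c * H)) X
      (by positivity) hX ?_ ?_
    · have hcard : ((G.card : ℕ) : ℝ) = ∑ ξ ∈ G.image g, ((G.filter fun x => g x = ξ).card : ℝ) := by
        rw [Finset.card_eq_sum_card_image g G]
        push_cast
        rfl
      rw [hcard]
      calc ∑ ξ ∈ G.image g, ((G.filter fun x => g x = ξ).card : ℝ)
          ≤ ∑ ξ ∈ G.image g,
              D2 * X ^ (ε / 4) * (X ^ ((7 : ℝ) / 10) * nn (bd ξ) ^ (-((2 : ℝ) / 3))) :=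
            Finset.sum_le_sum hfib
        _ = D2 * X ^ (ε / 4) * X ^ ((7 : ℝ) / 10)
              * ∑ ξ ∈ G.image g, nn (bd ξ) ^ (-((2 : ℝ) / 3)) := by
            rw [Finset.mul_sum]
            refine Finset.sum_congr rfl fun ξ _ => ?_
            ring
        _ ≤ D2 * X ^ (ε / 4) * X ^ ((7 : ℝ) / 10) * (D1 * (C1 * (c * H)) * X ^ (2 * (ε / 4))) := by
            refine mul_le_mul_of_nonneg_left hlay (by positivity)
        _ = D2 * (D1 * (C1 * c)) * H * (X ^ (ε / 4) * X ^ ((7 : ℝ) / 10) * X ^ (2 * (ε / 4))) := by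
            ring
        _ ≤ D2 * (D1 * (C1 * c)) * H * X ^ ((7 : ℝ) / 10 + ε) := by
            refine mul_le_mul_of_nonneg_left ?_ (by positivity)
            rw [← Real.rpow_add hX0, ← Real.rpow_add hX0]
            exact Real.rpow_le_rpow_of_exponent_le hX (by linarith)
    · intro ξ hξ
      obtain ⟨x, hx, rfl⟩ := Finset.mem_image.1 hξ
      exact ⟨one_le_nn _, ((hsub1 x hx).trans (hsub2 x hx)).trans (hF x (hGF x hx).1).2.1⟩
    · intro R hR G' hG' hG'R
      have h9 := hb' R (c * H) hR hcH G' ?_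
      · exact h9
      · intro ξ hξ
        obtain ⟨x, hx, hxξ⟩ := Finset.mem_image.1 (hG' hξ)
        have hFx := hF x (hGF x hx).1
        refine ⟨?_, hG'R ξ hξ, ?_⟩
        · rw [← hxξ]
          exact two_cfg_fst (haut_cfg x hFx.1 i)
        · intro j
          have h10 : ξ j = aut i x 0 := by
            rw [← hxξ, Subsingleton.elim j 0]; rfl
          rw [h10]
          exact hc x i H hH hFx.1 hFx.2.2
  have hcardF : ((F.card : ℕ) : ℝ) = ∑ i : Fin 5, ((F.filter fun x => ι x = i).card : ℝ) := by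
    rw [Finset.card_eq_sum_card_fiberwise (f := ι) (t := Finset.univ) fun x _ => Finset.mem_coe.2 (Finset.mem_univ _)]
    push_cast
    rfl
  rw [hcardF]
  calc ∑ i : Fin 5, ((F.filter fun x => ι x = i).card : ℝ)
      ≤ ∑ _i : Fin 5, D2 * (D1 * (C1 * c)) * H * X ^ ((7 : ℝ) / 10 + ε) :=
        Finset.sum_le_sum fun i _ => hmain i
    _ = 5 * (D2 * (D1 * (C1 * c))) * H * X ^ ((7 : ℝ) / 10 + ε) := by
        rw [Finset.sum_const, Finset.card_univ, Fintype.card_fin, nsmul_eq_mul]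
        push_cast
        ring

end Pool.Agent.TH876.MN
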