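import Pool.Agent.TH876.MN.Aut
import Pool.Agent.TH876.MN.Base
import Pool.Agent.TH876.MN.Choose
import Pool.Agent.TH876.MN.Fibre
import Pool.Agent.TH876.MN.FinM
import Pool.Agent.TH876.MN.Five
import Pool.Agent.TH876.MN.Layer
import Pool.Agent.TH876.MN.LightS
import Pool.Agent.TH876.MN.Step
import Pool.Agent.TH876.MN.Two

set_option autoImplicit false

/-!
# The number of configurations of at least five points with few bad primes
-/

namespace Pool.Agent.TH876.MN

open NumberField IsDedekindDomain Finset Pool.Agent.H691R3 Pool.Agent.TH876.Loc

variable (K : Type) [Field K] [NumberField K]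

theorem fibreBound (m : ℕ) : FibreBound K m :=
  fibre K m (chooseSec K m) (lightSets K) (powCard K)

theorem count_two : CountBound K 2 (7 / 10) :=
  two K (base K) layer (fibreBound K 1) (fun _ hx i => aut_cfg hx i)
    (fun _ hx i v h => aut_gd hx i v h) (fun _ _ hx hy i h => aut_inj hx hy i h) (aut_height K)
    (fun _ hx => exists_aut hx (fun i => aut_cfg hx i) (fun v hv => three_bad hx v hv))

theorem count_many (m : ℕ) (hm : 2 ≤ m) : CountBound K m (7 / 10) := by
  induction m, hm using Nat.le_induction with
  | base => exact count_two K
  | succ m hm ih => exact step K m hm ih layer (fibreBound K m)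

end Pool.Agent.TH876.MN
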