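import Mathlib
import Pool.Agent.TH876.MN.Def

set_option autoImplicit false

/-!
# The five automorphisms of the space of five points on a line (job 1903, written by helper828)
-/

namespace Pool.Agent.TH876.MN

open NumberField IsDedekindDomain Finset Pool.Agent.H691R3 Pool.Agent.TH876.Loc
open Pool.Agent.TH876.KR (form localHeight tt tri m2 GoodPr)

variable {K : Type} [Field K] [NumberField K]

omit [NumberField K] in
private theorem aut_facts {a b : K} (ha : a ≠ 0) (hb : b ≠ 0) (ha1 : 1 - a ≠ 0) (hb1 : 1 - b ≠ 0) :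
    a - 1 ≠ 0 ∧ b - 1 ≠ 0 := by
  constructor
  · intro h; apply ha1; linear_combination -h
  · intro h; apply hb1; linear_combination -h

omit [NumberField K] in
private theorem aut_cfg_iff (y : Fin 2 → K) : Cfg y ↔ (y 0 ≠ 0 ∧ y 1 ≠ 0 ∧ 1 - y 0 ≠ 0 ∧
    1 - y 1 ≠ 0 ∧ y 0 - y 1 ≠ 0) := by
  constructor
  · rintro ⟨h1, h2⟩
    exact ⟨(h1 0).1, (h1 1).1, (h1 0).2, (h1 1).2, h2 0 1 (by decide)⟩
  · rintro ⟨h1, h2, h3, h4, h5⟩
    refine ⟨fun i => ?_, fun i j hij => ?_⟩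
    · fin_cases i
      · exact ⟨h1, h3⟩
      · exact ⟨h2, h4⟩
    · fin_cases i <;> fin_cases j
      · exact absurd rfl hij
      · exact h5
      · change y 1 - y 0 ≠ 0
        intro h; apply h5; linear_combination -h
      · exact absurd rfl hij

private theorem aut_gd_iff (v : Pr K) (y : Fin 2 → K) : Gd v y ↔ (fv v (y 0) = 1 ∧ fv v (y 1) = 1 ∧
    fv v (1 - y 0) = 1 ∧ fv v (1 - y 1) = 1 ∧ fv v (y 0 - y 1) = 1) := by
  constructor
  · rintro ⟨h1, h2⟩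
    exact ⟨(h1 0).1, (h1 1).1, (h1 0).2, (h1 1).2, h2 0 1 (by decide)⟩
  · rintro ⟨h1, h2, h3, h4, h5⟩
    refine ⟨fun i => ?_, fun i j hij => ?_⟩
    · fin_cases i
      · exact ⟨h1, h3⟩
      · exact ⟨h2, h4⟩
    · fin_cases i <;> fin_cases j
      · exact absurd rfl hij
      · exact h5
      · change fv v (y 1 - y 0) = 1
        rw [AbsoluteValue.map_sub]; exact h5
      · exact absurd rfl hij

private theorem aut_gd1_iff (v : Pr K) (t : K) : Gd v (![t] : Fin 1 → K) ↔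
    (fv v t = 1 ∧ fv v (1 - t) = 1) := by
  constructor
  · rintro ⟨h1, h2⟩
    exact h1 0
  · rintro ⟨h1, h2⟩
    refine ⟨fun i => ?_, fun i j hij => ?_⟩
    · fin_cases i
      exact ⟨h1, h2⟩
    · exact absurd (Subsingleton.elim i j) hij

omit [NumberField K] in
/-- the five expressions for each automorphism -/
private theorem aut_expr {a b : K} (ha : a ≠ 0) (hb : b ≠ 0) (ha1 : 1 - a ≠ 0) (hb1 : 1 - b ≠ 0)
    (ha1' : a - 1 ≠ 0) (hb1' : b - 1 ≠ 0) :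
    (1 - a / b = (b - a) / b ∧ 1 - 1 / b = -(1 - b) / b ∧ a / b - 1 / b = -(1 - a) / b) ∧
    (1 - (a - 1) / (b - 1) = (a - b) / (1 - b) ∧ 1 - 1 / (1 - b) = -b / (1 - b) ∧
      (a - 1) / (b - 1) - 1 / (1 - b) = -a / (1 - b)) ∧
    (1 - a * (b - 1) / (b * (a - 1)) = -(a - b) / (b * (1 - a)) ∧ 1 - (b - 1) / b = 1 / b ∧
      a * (b - 1) / (b * (a - 1)) - (b - 1) / b = (1 - b) / (b * (1 - a))) := by
  have e1 : b - 1 = -(1 - b) := by ring
  have e2 : a - 1 = -(1 - a) := by ring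
  refine ⟨⟨?_, ?_, ?_⟩, ⟨?_, ?_, ?_⟩, ⟨?_, ?_, ?_⟩⟩
  · field_simp
  · field_simp; ring
  · field_simp; ring
  · rw [e1, e2]; field_simp; ring
  · field_simp; ring
  · rw [e1, e2]; field_simp; ring
  · rw [e1, e2]; field_simp; ring
  · field_simp; ring
  · rw [e1, e2]; field_simp; ring

/-- the automorphisms preserve configurations -/
theorem aut_cfg {x : Fin 2 → K} (hx : Cfg x) (i : Fin 5) : Cfg (aut i x) := by
  obtain ⟨h0, h1, h2, h3, h4⟩ := (aut_cfg_iff x).1 hx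
  obtain ⟨k0, k1⟩ := aut_facts h0 h1 h2 h3
  obtain ⟨⟨a1, a2, a3⟩, ⟨b1, b2, b3⟩, ⟨c1, c2, c3⟩⟩ := aut_expr h0 h1 h2 h3 k0 k1
  have h4' : x 1 - x 0 ≠ 0 := by intro h; apply h4; linear_combination -h
  rw [aut_cfg_iff]
  fin_cases i
  · exact ⟨h0, h1, h2, h3, h4⟩
  · exact ⟨h1, h0, h3, h2, h4'⟩
  · refine ⟨div_ne_zero h0 h1, div_ne_zero one_ne_zero h1, ?_, ?_, ?_⟩
    · change 1 - x 0 / x 1 ≠ 0
      rw [a1]; exact div_ne_zero h4' h1
    · change 1 - 1 / x 1 ≠ 0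
      rw [a2]; exact div_ne_zero (neg_ne_zero.2 h3) h1
    · change x 0 / x 1 - 1 / x 1 ≠ 0
      rw [a3]; exact div_ne_zero (neg_ne_zero.2 h2) h1
  · refine ⟨div_ne_zero k0 k1, div_ne_zero one_ne_zero h3, ?_, ?_, ?_⟩
    · change 1 - (x 0 - 1) / (x 1 - 1) ≠ 0
      rw [b1]; exact div_ne_zero h4 h3
    · change 1 - 1 / (1 - x 1) ≠ 0
      rw [b2]; exact div_ne_zero (neg_ne_zero.2 h1) h3
    · change (x 0 - 1) / (x 1 - 1) - 1 / (1 - x 1) ≠ 0
      rw [b3]; exact div_ne_zero (neg_ne_zero.2 h0) h3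
  · refine ⟨div_ne_zero (mul_ne_zero h0 k1) (mul_ne_zero h1 k0), div_ne_zero k1 h1, ?_, ?_, ?_⟩
    · change 1 - x 0 * (x 1 - 1) / (x 1 * (x 0 - 1)) ≠ 0
      rw [c1]; exact div_ne_zero (neg_ne_zero.2 h4) (mul_ne_zero h1 h2)
    · change 1 - (x 1 - 1) / x 1 ≠ 0
      rw [c2]; exact div_ne_zero one_ne_zero h1
    · change x 0 * (x 1 - 1) / (x 1 * (x 0 - 1)) - (x 1 - 1) / x 1 ≠ 0
      rw [c3]; exact div_ne_zero h3 (mul_ne_zero h1 h2)

private theorem aut_fv_sub (v : Pr K) (a b : K) : fv v (a - b) = fv v (b - a) :=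
  AbsoluteValue.map_sub _ _ _

theorem aut_gd {x : Fin 2 → K} (hx : Cfg x) (i : Fin 5) (v : Pr K) (h : Gd v x) :
    Gd v (aut i x) := by
  obtain ⟨h0, h1, h2, h3, h4⟩ := (aut_cfg_iff x).1 hx
  obtain ⟨k0, k1⟩ := aut_facts h0 h1 h2 h3
  obtain ⟨⟨a1, a2, a3⟩, ⟨b1, b2, b3⟩, ⟨c1, c2, c3⟩⟩ := aut_expr h0 h1 h2 h3 k0 k1
  obtain ⟨f0, f1, f2, f3, f4⟩ := (aut_gd_iff v x).1 h
  have f2' : fv v (x 0 - 1) = 1 := by rw [aut_fv_sub]; exact f2
  have f3' : fv v (x 1 - 1) = 1 := by rw [aut_fv_sub]; exact f3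
  have f4' : fv v (x 1 - x 0) = 1 := by rw [aut_fv_sub]; exact f4
  rw [aut_gd_iff]
  fin_cases i
  · exact ⟨f0, f1, f2, f3, f4⟩
  · exact ⟨f1, f0, f3, f2, f4'⟩
  · refine ⟨?_, ?_, ?_, ?_, ?_⟩
    · change fv v (x 0 / x 1) = 1
      rw [map_div₀, f0, f1, div_one]
    · change fv v (1 / x 1) = 1
      rw [map_div₀, map_one, f1, div_one]
    · change fv v (1 - x 0 / x 1) = 1
      rw [a1, map_div₀, f4', f1, div_one]
    · change fv v (1 - 1 / x 1) = 1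
      rw [a2, map_div₀, AbsoluteValue.map_neg, f3, f1, div_one]
    · change fv v (x 0 / x 1 - 1 / x 1) = 1
      rw [a3, map_div₀, AbsoluteValue.map_neg, f2, f1, div_one]
  · refine ⟨?_, ?_, ?_, ?_, ?_⟩
    · change fv v ((x 0 - 1) / (x 1 - 1)) = 1
      rw [map_div₀, f2', f3', div_one]
    · change fv v (1 / (1 - x 1)) = 1
      rw [map_div₀, map_one, f3, div_one]
    · change fv v (1 - (x 0 - 1) / (x 1 - 1)) = 1
      rw [b1, map_div₀, f4, f3, div_one]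
    · change fv v (1 - 1 / (1 - x 1)) = 1
      rw [b2, map_div₀, AbsoluteValue.map_neg, f1, f3, div_one]
    · change fv v ((x 0 - 1) / (x 1 - 1) - 1 / (1 - x 1)) = 1
      rw [b3, map_div₀, AbsoluteValue.map_neg, f0, f3, div_one]
  · refine ⟨?_, ?_, ?_, ?_, ?_⟩
    · change fv v (x 0 * (x 1 - 1) / (x 1 * (x 0 - 1))) = 1
      rw [map_div₀, map_mul, map_mul, f0, f3', f1, f2', mul_one, div_one]
    · change fv v ((x 1 - 1) / x 1) = 1
      rw [map_div₀, f3', f1, div_one]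
    · change fv v (1 - x 0 * (x 1 - 1) / (x 1 * (x 0 - 1))) = 1
      rw [c1, map_div₀, AbsoluteValue.map_neg, map_mul, f4, f1, f2, mul_one, div_one]
    · change fv v (1 - (x 1 - 1) / x 1) = 1
      rw [c2, map_div₀, map_one, f1, div_one]
    · change fv v (x 0 * (x 1 - 1) / (x 1 * (x 0 - 1)) - (x 1 - 1) / x 1) = 1
      rw [c3, map_div₀, map_mul, f3, f1, f2, mul_one, div_one]

theorem aut_inj {x y : Fin 2 → K} (hx : Cfg x) (hy : Cfg y) (i : Fin 5)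
    (h : aut i x = aut i y) : x = y := by
  obtain ⟨h0, h1, h2, h3, h4⟩ := (aut_cfg_iff x).1 hx
  obtain ⟨k0, k1⟩ := aut_facts h0 h1 h2 h3
  obtain ⟨h0', h1', h2', h3', h4'⟩ := (aut_cfg_iff y).1 hy
  obtain ⟨k0', k1'⟩ := aut_facts h0' h1' h2' h3'
  have e0 := congrFun h 0
  have e1 := congrFun h 1
  have hfin : x 0 = y 0 → x 1 = y 1 → x = y := by
    intro a b
    funext j
    fin_cases j
    · exact a
    · exact b
  fin_cases i
  · exact hfin e0 e1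
  · exact hfin e1 e0
  · change x 0 / x 1 = y 0 / y 1 at e0
    change 1 / x 1 = 1 / y 1 at e1
    have r1 : x 1 = y 1 := by
      rw [one_div, one_div] at e1
      exact inv_injective e1
    refine hfin ?_ r1
    rw [r1] at e0
    exact (div_left_inj' h1').1 e0
  · change (x 0 - 1) / (x 1 - 1) = (y 0 - 1) / (y 1 - 1) at e0
    change 1 / (1 - x 1) = 1 / (1 - y 1) at e1
    have r1 : x 1 = y 1 := by
      rw [one_div, one_div] at e1
      have := inv_injective e1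
      linear_combination -this
    refine hfin ?_ r1
    rw [r1] at e0
    have := (div_left_inj' k1').1 e0
    linear_combination this
  · change x 0 * (x 1 - 1) / (x 1 * (x 0 - 1)) = y 0 * (y 1 - 1) / (y 1 * (y 0 - 1)) at e0
    change (x 1 - 1) / x 1 = (y 1 - 1) / y 1 at e1
    have r1 : x 1 = y 1 := by
      rw [div_eq_div_iff h1 h1'] at e1
      linear_combination e1
    refine hfin ?_ r1
    rw [r1, div_eq_div_iff (mul_ne_zero h1' k0) (mul_ne_zero h1' k0')] at e0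
    have e2 : (y 1 * (y 1 - 1)) * (x 0 * (y 0 - 1)) = (y 1 * (y 1 - 1)) * (y 0 * (x 0 - 1)) := by
      linear_combination e0
    have e3 := mul_left_cancel₀ (mul_ne_zero h1' k1') e2
    linear_combination -e3

variable (K) in
theorem aut_height : ∃ c : ℝ, 1 ≤ c ∧ ∀ (x : Fin 2 → K) (i : Fin 5) (H : ℝ), 1 ≤ H → Cfg x →
    (∀ j, Height.logHeight₁ (x j) ≤ H) → Height.logHeight₁ (aut i x 0) ≤ c * H := by
  obtain ⟨d, hd0, hd⟩ : ∃ d : ℝ, 0 ≤ d ∧ ∀ t : K, Height.logHeight₁ (t - 1) ≤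
      Height.logHeight₁ t + d := by
    refine ⟨max 0 (Height.logHeight₁ ((0 : K) - 1) + (Height.totalWeight K * Real.log 2)),
      le_max_left _ _, fun t => ?_⟩
    have := Height.logHeight₁_sub_le t 1
    rw [Height.logHeight₁_one] at this
    have h1 := Height.zero_le_logHeight₁ ((0 : K) - 1)
    have h2 := le_max_right 0 (Height.logHeight₁ ((0 : K) - 1) +
      (Height.totalWeight K * Real.log 2))
    linarith
  refine ⟨4 + 2 * d, by linarith, fun x i H hH hx hxH => ?_⟩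
  have h0 := hxH 0
  have h1 := hxH 1
  have g0 := hd (x 0)
  have g1 := hd (x 1)
  have hdH : d ≤ d * H := by nlinarith
  fin_cases i
  · change Height.logHeight₁ (x 0) ≤ _
    nlinarith
  · change Height.logHeight₁ (x 1) ≤ _
    nlinarith
  · change Height.logHeight₁ (x 0 / x 1) ≤ _
    rw [div_eq_mul_inv]
    have := Height.logHeight₁_mul_le (x 0) (x 1)⁻¹
    rw [Height.logHeight₁_inv] at this
    nlinarith
  · change Height.logHeight₁ ((x 0 - 1) / (x 1 - 1)) ≤ _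
    rw [div_eq_mul_inv]
    have := Height.logHeight₁_mul_le (x 0 - 1) (x 1 - 1)⁻¹
    rw [Height.logHeight₁_inv] at this
    nlinarith
  · change Height.logHeight₁ (x 0 * (x 1 - 1) / (x 1 * (x 0 - 1))) ≤ _
    rw [div_eq_mul_inv]
    have t1 := Height.logHeight₁_mul_le (x 0 * (x 1 - 1)) (x 1 * (x 0 - 1))⁻¹
    rw [Height.logHeight₁_inv] at t1
    have t2 := Height.logHeight₁_mul_le (x 0) (x 1 - 1)
    have t3 := Height.logHeight₁_mul_le (x 1) (x 0 - 1)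
    nlinarith

/-- a bad prime is bad for at least three of the five -/
theorem three_bad {x : Fin 2 → K} (hx : Cfg x) (v : Pr K) (hv : ¬ Gd v x) :
    ∃ T : Finset (Fin 5), T.card = 3 ∧ ∀ i ∈ T, ¬ Gd v (![aut i x 0] : Fin 1 → K) := by
  classical
  obtain ⟨h0, h1, h2, h3, h4⟩ := (aut_cfg_iff x).1 hx
  obtain ⟨k0, k1⟩ := aut_facts h0 h1 h2 h3
  obtain ⟨⟨a1, a2, a3⟩, ⟨b1, b2, b3⟩, ⟨c1, c2, c3⟩⟩ := aut_expr h0 h1 h2 h3 k0 k1
  have pa : 0 < fv v (x 0) := (fv v).pos h0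
  have pb : 0 < fv v (x 1) := (fv v).pos h1
  have pc : 0 < fv v (1 - x 0) := (fv v).pos h2
  have pd : 0 < fv v (1 - x 1) := (fv v).pos h3
  have pe : 0 < fv v (x 0 - x 1) := (fv v).pos h4
  have q0 : Gd v (![aut 0 x 0] : Fin 1 → K) ↔ fv v (x 0) = 1 ∧ fv v (1 - x 0) = 1 :=
    aut_gd1_iff v _
  have q1 : Gd v (![aut 1 x 0] : Fin 1 → K) ↔ fv v (x 1) = 1 ∧ fv v (1 - x 1) = 1 :=
    aut_gd1_iff v _
  have q2 : Gd v (![aut 2 x 0] : Fin 1 → K) ↔ fv v (x 0) = fv v (x 1) ∧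
      fv v (x 0 - x 1) = fv v (x 1) := by
    rw [aut_gd1_iff]
    change fv v (x 0 / x 1) = 1 ∧ fv v (1 - x 0 / x 1) = 1 ↔ _
    rw [a1, map_div₀, map_div₀, div_eq_one_iff_eq pb.ne', div_eq_one_iff_eq pb.ne',
      aut_fv_sub v (x 1)]
  have q3 : Gd v (![aut 3 x 0] : Fin 1 → K) ↔ fv v (1 - x 0) = fv v (1 - x 1) ∧
      fv v (x 0 - x 1) = fv v (1 - x 1) := by
    rw [aut_gd1_iff]
    change fv v ((x 0 - 1) / (x 1 - 1)) = 1 ∧ fv v (1 - (x 0 - 1) / (x 1 - 1)) = 1 ↔ _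
    rw [b1, map_div₀, map_div₀, aut_fv_sub v (x 0) 1, aut_fv_sub v (x 1) 1,
      div_eq_one_iff_eq pd.ne', div_eq_one_iff_eq pd.ne']
  have q4 : Gd v (![aut 4 x 0] : Fin 1 → K) ↔ fv v (x 0) * fv v (1 - x 1) =
      fv v (x 1) * fv v (1 - x 0) ∧ fv v (x 0 - x 1) = fv v (x 1) * fv v (1 - x 0) := by
    rw [aut_gd1_iff]
    change fv v (x 0 * (x 1 - 1) / (x 1 * (x 0 - 1))) = 1 ∧
      fv v (1 - x 0 * (x 1 - 1) / (x 1 * (x 0 - 1))) = 1 ↔ _
    rw [c1, map_div₀, map_div₀, AbsoluteValue.map_neg, map_mul, map_mul, map_mul,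
      aut_fv_sub v (x 0) 1, aut_fv_sub v (x 1) 1, div_eq_one_iff_eq (by positivity),
      div_eq_one_iff_eq (by positivity)]
  set a := fv v (x 0) with ha
  set b := fv v (x 1) with hb
  set c := fv v (1 - x 0) with hc
  set d := fv v (1 - x 1) with hd
  set e := fv v (x 0 - x 1) with he
  have hbad : ¬ (a = 1 ∧ b = 1 ∧ c = 1 ∧ d = 1 ∧ e = 1) := fun h => hv ((aut_gd_iff v x).2 h)
  -- the good indices
  set G : Finset (Fin 5) := Finset.univ.filter fun i => Gd v (![aut i x 0] : Fin 1 → K) with hG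
  have hGc : G.card ≤ 2 := by
    by_contra hcon
    rw [not_le] at hcon
    apply hbad
    have hmem : ∀ i, i ∈ G ↔ Gd v (![aut i x 0] : Fin 1 → K) := fun i => by
      rw [hG, Finset.mem_filter]; simp
    have m0 := (hmem 0).trans q0
    have m1 := (hmem 1).trans q1
    have m2 := (hmem 2).trans q2
    have m3 := (hmem 3).trans q3
    have m4 := (hmem 4).trans q4
    clear hmem hG
    clear_value G
    have hcard : G.card = (if (0 : Fin 5) ∈ G then 1 else 0) + (if (1 : Fin 5) ∈ G then 1 else 0) +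
        (if (2 : Fin 5) ∈ G then 1 else 0) + (if (3 : Fin 5) ∈ G then 1 else 0) +
        (if (4 : Fin 5) ∈ G then 1 else 0) := by
      rw [← Fin.sum_univ_five (f := fun i : Fin 5 => if i ∈ G then 1 else 0)]
      simp
    rw [hcard] at hcon
    have mul1 : ∀ {s t : ℝ}, 0 < s → s = s * t → t = 1 := by
      intro s t hs h
      have : s * (t - 1) = 0 := by linarith
      rcases mul_eq_zero.1 this with h | h
      · exact absurd h hs.ne'
      · linarith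
    have t012 : (a = 1 ∧ c = 1) → (b = 1 ∧ d = 1) → (a = b ∧ e = b) →
        (a = 1 ∧ b = 1 ∧ c = 1 ∧ d = 1 ∧ e = 1) := by
      rintro ⟨r1, r2⟩ ⟨r3, r4⟩ ⟨r5, r6⟩
      exact ⟨r1, r3, r2, r4, r6.trans r3⟩
    have t013 : (a = 1 ∧ c = 1) → (b = 1 ∧ d = 1) → (c = d ∧ e = d) →
        (a = 1 ∧ b = 1 ∧ c = 1 ∧ d = 1 ∧ e = 1) := by
      rintro ⟨r1, r2⟩ ⟨r3, r4⟩ ⟨r5, r6⟩
      exact ⟨r1, r3, r2, r4, r6.trans r4⟩
    have t014 : (a = 1 ∧ c = 1) → (b = 1 ∧ d = 1) → (a * d = b * c ∧ e = b * c) →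
        (a = 1 ∧ b = 1 ∧ c = 1 ∧ d = 1 ∧ e = 1) := by
      rintro ⟨r1, r2⟩ ⟨r3, r4⟩ ⟨r5, r6⟩
      exact ⟨r1, r3, r2, r4, by rw [r6, r3, r2, mul_one]⟩
    have t023 : (a = 1 ∧ c = 1) → (a = b ∧ e = b) → (c = d ∧ e = d) →
        (a = 1 ∧ b = 1 ∧ c = 1 ∧ d = 1 ∧ e = 1) := by
      rintro ⟨r1, r2⟩ ⟨r3, r4⟩ ⟨r5, r6⟩
      exact ⟨r1, r3.symm.trans r1, r2, r5.symm.trans r2, r6.trans (r5.symm.trans r2)⟩
    have t024 : (a = 1 ∧ c = 1) → (a = b ∧ e = b) → (a * d = b * c ∧ e = b * c) →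
        (a = 1 ∧ b = 1 ∧ c = 1 ∧ d = 1 ∧ e = 1) := by
      rintro ⟨r1, r2⟩ ⟨r3, r4⟩ ⟨r5, r6⟩
      have r7 := r3.symm.trans r1
      rw [r1, r7, r2, one_mul, one_mul] at r5
      exact ⟨r1, r7, r2, r5, r4.trans r7⟩
    have t034 : (a = 1 ∧ c = 1) → (c = d ∧ e = d) → (a * d = b * c ∧ e = b * c) →
        (a = 1 ∧ b = 1 ∧ c = 1 ∧ d = 1 ∧ e = 1) := by
      rintro ⟨r1, r2⟩ ⟨r3, r4⟩ ⟨r5, r6⟩
      have r7 := r3.symm.trans r2
      rw [r1, r7, r2, one_mul, mul_one] at r5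
      exact ⟨r1, r5.symm, r2, r7, r4.trans r7⟩
    have t123 : (b = 1 ∧ d = 1) → (a = b ∧ e = b) → (c = d ∧ e = d) →
        (a = 1 ∧ b = 1 ∧ c = 1 ∧ d = 1 ∧ e = 1) := by
      rintro ⟨r1, r2⟩ ⟨r3, r4⟩ ⟨r5, r6⟩
      exact ⟨r3.trans r1, r1, r5.trans r2, r2, r4.trans r1⟩
    have t124 : (b = 1 ∧ d = 1) → (a = b ∧ e = b) → (a * d = b * c ∧ e = b * c) →
        (a = 1 ∧ b = 1 ∧ c = 1 ∧ d = 1 ∧ e = 1) := by
      rintro ⟨r1, r2⟩ ⟨r3, r4⟩ ⟨r5, r6⟩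
      have r7 := r3.trans r1
      rw [r7, r2, r1, one_mul, one_mul] at r5
      exact ⟨r7, r1, r5.symm, r2, r4.trans r1⟩
    have t134 : (b = 1 ∧ d = 1) → (c = d ∧ e = d) → (a * d = b * c ∧ e = b * c) →
        (a = 1 ∧ b = 1 ∧ c = 1 ∧ d = 1 ∧ e = 1) := by
      rintro ⟨r1, r2⟩ ⟨r3, r4⟩ ⟨r5, r6⟩
      have r7 := r3.trans r2
      rw [r2, r1, r7, mul_one, mul_one] at r5
      exact ⟨r5, r1, r7, r2, r4.trans r2⟩
    have t234 : (a = b ∧ e = b) → (c = d ∧ e = d) → (a * d = b * c ∧ e = b * c) →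
        (a = 1 ∧ b = 1 ∧ c = 1 ∧ d = 1 ∧ e = 1) := by
      rintro ⟨r1, r2⟩ ⟨r3, r4⟩ ⟨r5, r6⟩
      rw [← r2, r3, ← r4] at r6
      have r7 := mul1 pe r6
      exact ⟨r1.trans (r2.symm.trans r7), r2.symm.trans r7, r3.trans (r4.symm.trans r7),
        r4.symm.trans r7, r7⟩
    by_cases n0 : (0 : Fin 5) ∈ G <;> by_cases n1 : (1 : Fin 5) ∈ G <;>
      by_cases n2 : (2 : Fin 5) ∈ G <;> by_cases n3 : (3 : Fin 5) ∈ G <;>
      by_cases n4 : (4 : Fin 5) ∈ G <;>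
      first
      | exact t012 (m0.1 n0) (m1.1 n1) (m2.1 n2)
      | exact t013 (m0.1 n0) (m1.1 n1) (m3.1 n3)
      | exact t014 (m0.1 n0) (m1.1 n1) (m4.1 n4)
      | exact t023 (m0.1 n0) (m2.1 n2) (m3.1 n3)
      | exact t024 (m0.1 n0) (m2.1 n2) (m4.1 n4)
      | exact t034 (m0.1 n0) (m3.1 n3) (m4.1 n4)
      | exact t123 (m1.1 n1) (m2.1 n2) (m3.1 n3)
      | exact t124 (m1.1 n1) (m2.1 n2) (m4.1 n4)
      | exact t134 (m1.1 n1) (m3.1 n3) (m4.1 n4)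
      | exact t234 (m2.1 n2) (m3.1 n3) (m4.1 n4)
      | (exfalso; simp only [n0, n1, n2, n3, n4, if_true, if_false] at hcon; omega)
  have hcompl : 3 ≤ Gᶜ.card := by
    rw [Finset.card_compl, Fintype.card_fin]; omega
  obtain ⟨T, hTsub, hTc⟩ := Finset.exists_subset_card_eq hcompl
  refine ⟨T, hTc, fun i hi hGd => ?_⟩
  have := hTsub hi
  rw [Finset.mem_compl] at this
  exact this (by rw [hG, Finset.mem_filter]; exact ⟨Finset.mem_univ _, hGd⟩)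

end Pool.Agent.TH876.MN
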